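import Mathlib
import Pool.Agent.Work.MP_a98e4e_ag.Defs

section

/-!
# Closed fibre packages (the algebra over the residue field in codimension six)

`C = X_1`, `Dual k C = X_{-1}`, `B = X_0`.
`σ x ξ = D(x,ξ)` on `B`, `R x ξ u = D(x,u) ξ`, `S x y ξ = D(x,y) ξ`, `T x ξ = D(x,ξ)` on `C`.
-/

set_option autoImplicit false

open Module

namespace LicciCF

/-- The components of a super symmetric quartic form on `X_{-1} + X_0 + X_1`. -/
structure Dat (k C B : Type*) [Field k] [AddCommGroup C] [Module k C]
    [AddCommGroup B] [Module k B] where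
  ω : B →ₗ[k] B →ₗ[k] k
  σ : C →ₗ[k] Dual k C →ₗ[k] (B →ₗ[k] B)
  S : C →ₗ[k] C →ₗ[k] Dual k C →ₗ[k] C

namespace Dat

variable {k C B : Type*} [Field k] [AddCommGroup C] [Module k C] [AddCommGroup B] [Module k B]
  (P : Dat k C B)

/-- `R x ξ u = D(x,u) ξ`. -/
def R (x : C) (ξ : Dual k C) : B →ₗ[k] B := ξ x • LinearMap.id + P.σ x ξ

/-- `T x ξ y = D(x,ξ) y`. -/
def T (x : C) (ξ : Dual k C) : C →ₗ[k] C :=
  (2 : k) • ξ.smulRight x - ξ x • LinearMap.id - (P.S x).flip ξ

/-- The identity `D² = 12 D`, in components. -/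
structure IsPkg [FiniteDimensional k C] [FiniteDimensional k B] : Prop where
  alt : ∀ u, P.ω u u = 0
  nondeg : ∀ u, (∀ w, P.ω u w = 0) → u = 0
  sp : ∀ x ξ u w, P.ω (P.σ x ξ u) w + P.ω u (P.σ x ξ w) = 0
  S_alt : ∀ x, P.S x x = 0
  S_skew : ∀ (x y : C) (ξ η : Dual k C), η (P.S x y ξ) + ξ (P.S x y η) = 0
  dim : finrank k B = 56 + 2 * finrank k C
  d1 : ∀ (ι : Type) [Fintype ι] (e : Basis ι k C) (x : C) (ξ : Dual k C),
    ∑ i, P.R (e i) ξ ∘ₗ P.R x (e.coord i) = (12 : k) • P.R x ξ
  d2 : ∀ (ι : Type) [Fintype ι] (e : Basis ι k C) (x y : C),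
    ∑ i, P.S (P.S x y (e.coord i)) (e i) = (24 : k) • P.S x y
  d0 : ∀ (x y : C) (ξ η : Dual k C),
    LinearMap.trace k C (P.T x ξ ∘ₗ P.T y η) -
      2⁻¹ * LinearMap.trace k B (P.σ x ξ ∘ₗ P.σ y η) = 12 * η (P.T x ξ y)

/-- `eps ≠ 0`, exactness of `k → X_1 → 𝒜² → 0`, and surjectivity of `X_0 → 𝒜¹`. -/
structure IsEps (ε : C) : Prop where
  ne : ε ≠ 0
  e1 : ∀ x, P.S ε x = 0 → ∃ c : k, x = c • ε
  e2 : ∀ x y, ∃ z, P.S x y = P.S ε z
  e3 : ∀ x u, ∃ w, ∀ ξ, P.R x ξ u = P.R ε ξ w

/-- An odd derivation `d`: `δ ξ = d ξ` for `ξ ∈ X_{-1}`, `∂ u = d u` for `u ∈ X_0`. -/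
structure IsDer (δ : Dual k C →ₗ[k] B) (del : B →ₗ[k] C) : Prop where
  adj : ∀ ξ u, ξ (del u) = P.ω (δ ξ) u
  sq : ∀ ξ, del (δ ξ) = 0
  dq : ∀ (x : C) (u : B) (ξ η : Dual k C), η (P.S x (del u) ξ) = P.ω (P.σ x ξ (δ η)) u - P.ω (P.σ x η (δ ξ)) u
    + η x * ξ (del u) - ξ x * η (del u)
  dq2 : ∀ ξ, δ ξ = 0 → ∀ u v w,
    P.ω (P.σ (del u) ξ v) w + P.ω (P.σ (del v) ξ w) u + P.ω (P.σ (del w) ξ u) v = 0

end Dat

end LicciCF

end

section

/-!
# The leading form of the differential

Arrays of coefficients of the components of a quartic form on `X_{-1} + X_0 + X_1` over a commutative ring, and of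
a differential; base change, division by a nonzero scalar, and the closed fibre of the leading form.
-/

set_option autoImplicit false
set_option linter.unusedSectionVars false
set_option linter.unusedSimpArgs false

open Module Finset

namespace LicciCF

/-- Coefficients: `ω(b_p,b_q) = om p q`, `σ(e_i,ξ^j) b_p = ∑ q, sg i j p q b_q`,
`S(e_i,e_j) ξ^l = ∑ m, S i j l m e_m`, and the quartic form `q0` on `X_0`. -/
structure Arr (A ι κ : Type*) where
  om : κ → κ → A
  sg : ι → ι → κ → κ → A
  S : ι → ι → ι → ι → A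
  q0 : κ → κ → κ → κ → A

namespace Arr

variable {A A' ι κ : Type*} [CommRing A] [CommRing A'] [Fintype ι] [Fintype κ] [DecidableEq ι]

/-- base change -/
def map (f : A →+* A') (P : Arr A ι κ) : Arr A' ι κ where
  om p q := f (P.om p q)
  sg i j p q := f (P.sg i j p q)
  S i j l m := f (P.S i j l m)
  q0 p q r s := f (P.q0 p q r s)

/-- `δ ξ^i = ∑ p, dl i p b_p`, `∂ b_p = ∑ i, de p i e_i` -/
structure IsDer (P : Arr A ι κ) (dl : ι → κ → A) (de : κ → ι → A) : Prop where
  adj : ∀ i p, de p i = ∑ q, dl i q * P.om q p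
  sq : ∀ i j, ∑ p, dl i p * de p j = 0
  dq : ∀ (i j l : ι) (p : κ), ∑ m, de p m * P.S i m j l =
    ∑ q, ∑ r, dl l q * P.sg i j q r * P.om r p - ∑ q, ∑ r, dl j q * P.sg i l q r * P.om r p
      + (if i = l then de p j else 0) - (if i = j then de p l else 0)
  dq2 : ∀ (j : ι) (u v w : κ), ∑ q, dl j q * P.q0 q u v w +
    (∑ m, ∑ r, de u m * P.sg m j v r * P.om r w + ∑ m, ∑ r, de v m * P.sg m j w r * P.om r u +
      ∑ m, ∑ r, de w m * P.sg m j u r * P.om r v) = 0

theorem IsDer.map {P : Arr A ι κ} {dl : ι → κ → A} {de : κ → ι → A} (h : P.IsDer dl de) (f : A →+* A') :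
    (P.map f).IsDer (fun i p => f (dl i p)) (fun p i => f (de p i)) := by
  refine ⟨fun i p => ?_, fun i j => ?_, fun i j l p => ?_, fun j u v w => ?_⟩
  · have := congrArg f (h.adj i p)
    simp only [map_sum, map_mul] at this
    exact this
  · have := congrArg f (h.sq i j)
    simpa only [map_sum, map_mul, map_zero] using this
  · have := congrArg f (h.dq i j l p)
    simp only [map_sum, map_mul, map_add, map_sub, apply_ite f, map_zero] at this
    exact this
  · have := congrArg f (h.dq2 j u v w)
    simp only [map_sum, map_mul, map_add, map_zero] at this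
    exact this

/-- division by a scalar -/
theorem IsDer.div [IsDomain A] {P : Arr A ι κ} {dl : ι → κ → A} {de : κ → ι → A} (h : P.IsDer dl de) {c : A}
    (hc : c ≠ 0) (dl' : ι → κ → A) (hdl : ∀ i p, dl i p = c * dl' i p) :
    P.IsDer dl' (fun p i => ∑ q, dl' i q * P.om q p) := by
  have hde : ∀ p i, de p i = c * ∑ q, dl' i q * P.om q p := by
    intro p i
    rw [h.adj, mul_sum]
    exact sum_congr rfl fun q _ => by rw [hdl, mul_assoc]
  have hcan : ∀ {a b : A}, c * a = c * b → a = b := fun h => mul_left_cancel₀ hc h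
  refine ⟨fun i p => rfl, fun i j => ?_, fun i j l p => ?_, fun j u v w => ?_⟩
  · apply hcan
    apply hcan
    rw [mul_zero, mul_zero, ← h.sq i j, mul_sum, mul_sum]
    exact sum_congr rfl fun p _ => by rw [hdl, hde]; ring
  · apply hcan
    have := h.dq i j l p
    simp only [hdl, hde] at this
    have e1 : ∀ j l, ∑ q, ∑ r, c * dl' l q * P.sg i j q r * P.om r p =
        c * ∑ q, ∑ r, dl' l q * P.sg i j q r * P.om r p := by
      intro j l
      simp only [mul_sum, mul_assoc]
    have e2 : ∑ m, c * (∑ q, dl' m q * P.om q p) * P.S i m j l =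
        c * ∑ m, (∑ q, dl' m q * P.om q p) * P.S i m j l := by
      rw [mul_sum]
      exact sum_congr rfl fun m _ => by ring
    have e3 : ∀ j l, (if i = l then c * ∑ q, dl' j q * P.om q p else 0) =
        c * (if i = l then ∑ q, dl' j q * P.om q p else 0) := by
      intro j l; split_ifs <;> simp
    rw [e1, e1, e2, e3, e3] at this
    rw [this]; ring
  · apply hcan
    have := h.dq2 j u v w
    simp only [hdl, hde] at this
    have e1 : ∀ u v w, ∑ m, ∑ r, c * (∑ q, dl' m q * P.om q u) * P.sg m j v r * P.om r w =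
        c * ∑ m, ∑ r, (∑ q, dl' m q * P.om q u) * P.sg m j v r * P.om r w := by
      intro u v w
      rw [mul_sum]
      refine sum_congr rfl fun m _ => ?_
      generalize (∑ q, dl' m q * P.om q u) = X
      rw [mul_sum]
      exact sum_congr rfl fun r _ => by ring
    have e2 : ∑ q, c * dl' j q * P.q0 q u v w = c * ∑ q, dl' j q * P.q0 q u v w := by
      simp only [mul_sum, mul_assoc]
    rw [e1, e1, e1, e2] at this
    rw [mul_zero, ← this]; ring

/-! ### from arrays to linear maps over a field -/

variable {k : Type*} [Field k] [DecidableEq κ]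

/-- the bilinear form -/
noncomputable def toDat (P : Arr k ι κ) : Dat k (ι → k) (κ → k) where
  ω := LinearMap.mk₂ k (fun u v => ∑ p, ∑ q, u p * v q * P.om p q)
    (fun a b c => by simp only [Pi.add_apply, add_mul, sum_add_distrib])
    (fun a b c => by simp only [Pi.smul_apply, smul_eq_mul, mul_sum, mul_assoc])
    (fun a b c => by simp only [Pi.add_apply, mul_add, add_mul, sum_add_distrib])
    (fun a b c => by
      simp only [Pi.smul_apply, smul_eq_mul, mul_sum]
      exact sum_congr rfl fun _ _ => sum_congr rfl fun _ _ => by ring)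
  σ := LinearMap.mk₂ k
    (fun (x : ι → k) (ξ : Dual k (ι → k)) => Matrix.toLin' (Matrix.of fun q p => ∑ i, ∑ j, x i * ξ (Pi.single j 1) * P.sg i j p q))
    (fun a b c => by
      rw [← map_add]; congr 1; ext q p
      simp only [Matrix.of_apply, Matrix.add_apply, Pi.add_apply, add_mul, sum_add_distrib])
    (fun a b c => by
      rw [← map_smul]; congr 1; ext q p
      simp only [Matrix.of_apply, Matrix.smul_apply, Pi.smul_apply, smul_eq_mul, mul_sum, mul_assoc])
    (fun a b c => by
      rw [← map_add]; congr 1; ext q p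
      simp only [Matrix.of_apply, Matrix.add_apply, LinearMap.add_apply, mul_add, add_mul, sum_add_distrib])
    (fun a b c => by
      rw [← map_smul]; congr 1; ext q p
      simp only [Matrix.of_apply, Matrix.smul_apply, LinearMap.smul_apply, smul_eq_mul, mul_sum]
      exact sum_congr rfl fun _ _ => sum_congr rfl fun _ _ => by ring)
  S := LinearMap.mk₂ k
    (fun (x y : ι → k) => (Matrix.toLin' (Matrix.of fun m l => ∑ i, ∑ j, x i * y j * P.S i j l m)) ∘ₗ
      (LinearMap.pi fun l => Dual.eval k (ι → k) (Pi.single l 1)))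
    (fun a b c => by
      rw [← LinearMap.add_comp, ← map_add]; congr 2; ext q p
      simp only [Matrix.of_apply, Matrix.add_apply, Pi.add_apply, add_mul, sum_add_distrib])
    (fun a b c => by
      rw [← LinearMap.smul_comp, ← map_smul]; congr 2; ext q p
      simp only [Matrix.of_apply, Matrix.smul_apply, Pi.smul_apply, smul_eq_mul, mul_sum, mul_assoc])
    (fun a b c => by
      rw [← LinearMap.add_comp, ← map_add]; congr 2; ext q p
      simp only [Matrix.of_apply, Matrix.add_apply, Pi.add_apply, mul_add, add_mul, sum_add_distrib])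
    (fun a b c => by
      rw [← LinearMap.smul_comp, ← map_smul]; congr 2; ext q p
      simp only [Matrix.of_apply, Matrix.smul_apply, Pi.smul_apply, smul_eq_mul, mul_sum]
      exact sum_congr rfl fun _ _ => sum_congr rfl fun _ _ => by ring)

theorem toDat_ω (P : Arr k ι κ) (u v : κ → k) : P.toDat.ω u v = ∑ p, ∑ q, u p * v q * P.om p q := rfl

theorem toDat_σ (P : Arr k ι κ) (x : ι → k) (ξ : Dual k (ι → k)) (u : κ → k) (q : κ) :
    P.toDat.σ x ξ u q = ∑ p, (∑ i, ∑ j, x i * ξ (Pi.single j 1) * P.sg i j p q) * u p := by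
  show (Matrix.toLin' _ u) q = _
  rw [Matrix.toLin'_apply]
  rfl

theorem toDat_S (P : Arr k ι κ) (x y : ι → k) (ξ : Dual k (ι → k)) (m : ι) :
    P.toDat.S x y ξ m = ∑ l, (∑ i, ∑ j, x i * y j * P.S i j l m) * ξ (Pi.single l 1) := by
  show (Matrix.toLin' _ _) m = _
  rw [Matrix.toLin'_apply]
  rfl

/-- the map `δ` -/
noncomputable def dMap (dl : ι → κ → k) : Dual k (ι → k) →ₗ[k] (κ → k) where
  toFun ξ p := ∑ i, ξ (Pi.single i 1) * dl i p
  map_add' a b := by ext p; simp only [LinearMap.add_apply, Pi.add_apply, add_mul, sum_add_distrib]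
  map_smul' c a := by
    ext p
    simp only [LinearMap.smul_apply, Pi.smul_apply, smul_eq_mul, RingHom.id_apply, mul_sum, mul_assoc]

/-- the map `∂` -/
noncomputable def eMap (de : κ → ι → k) : (κ → k) →ₗ[k] (ι → k) where
  toFun u i := ∑ p, u p * de p i
  map_add' a b := by ext p; simp only [Pi.add_apply, add_mul, sum_add_distrib]
  map_smul' c a := by
    ext p
    simp only [Pi.smul_apply, smul_eq_mul, RingHom.id_apply, mul_sum, mul_assoc]

theorem dMap_apply (dl : ι → κ → k) (ξ : Dual k (ι → k)) (p : κ) :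
    dMap dl ξ p = ∑ i, ξ (Pi.single i 1) * dl i p := rfl

theorem eMap_apply (de : κ → ι → k) (u : κ → k) (i : ι) : eMap de u i = ∑ p, u p * de p i := rfl

theorem pi_ind {p : (ι → k) → Prop} (h0 : ∀ i, p (Pi.single i 1)) (hz : p 0) (ha : ∀ a b, p a → p b → p (a + b))
    (hs : ∀ (c : k) a, p a → p (c • a)) (x : ι → k) : p x := by
  have hx : x = ∑ i, x i • (Pi.single i 1 : ι → k) := by
    ext j
    simp [Finset.sum_apply, Pi.single_apply]
  rw [hx]
  apply Finset.sum_induction _ p (fun a b => ha a b) hz
  intro i _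
  exact hs _ _ (h0 i)

theorem dual_ind {p : Dual k (ι → k) → Prop} (h0 : ∀ i, p (LinearMap.proj i)) (hz : p 0)
    (ha : ∀ a b, p a → p b → p (a + b)) (hs : ∀ (c : k) a, p a → p (c • a)) (ξ : Dual k (ι → k)) : p ξ := by
  have hx : ξ = ∑ i, ξ (Pi.single i 1) • (LinearMap.proj i : Dual k (ι → k)) := by
    ext j
    simp [LinearMap.sum_apply, Pi.single_apply]
  rw [hx]
  apply Finset.sum_induction _ p (fun a b => ha a b) hz
  intro i _
  exact hs _ _ (h0 i)

theorem dMap_proj (dl : ι → κ → k) (i : ι) : dMap dl (LinearMap.proj i) = fun p => dl i p := by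
  ext p
  simp [dMap_apply, Pi.single_apply]

theorem eMap_single (de : κ → ι → k) (p : κ) : eMap de (Pi.single p 1) = fun i => de p i := by
  ext i
  simp [eMap_apply, Pi.single_apply]

theorem σ_single (P : Arr k ι κ) (i j : ι) (u : κ → k) :
    P.toDat.σ (Pi.single i 1) (LinearMap.proj j) u = fun q => ∑ p, u p * P.sg i j p q := by
  ext q
  rw [toDat_σ]
  refine sum_congr rfl fun p _ => ?_
  rw [mul_comm]
  congr 1
  rw [Finset.sum_eq_single i (fun i' _ h => by simp [Pi.single_apply, h]) (fun h => absurd (mem_univ _) h),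
    Finset.sum_eq_single j (fun j' _ h => by simp [Pi.single_apply, Ne.symm h]) (fun h => absurd (mem_univ _) h)]
  simp

theorem S_single (P : Arr k ι κ) (i l m : ι) (y : ι → k) :
    P.toDat.S (Pi.single i 1) y (LinearMap.proj l) m = ∑ j, y j * P.S i j l m := by
  rw [toDat_S]
  rw [Finset.sum_eq_single l (fun j' _ h => by simp [Pi.single_apply, Ne.symm h]) (fun h => absurd (mem_univ _) h)]
  rw [Finset.sum_eq_single i (fun i' _ h => by simp [Pi.single_apply, h]) (fun h => absurd (mem_univ _) h)]
  simp

theorem ω_single (P : Arr k ι κ) (u : κ → k) (p : κ) :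
    P.toDat.ω u (Pi.single p 1) = ∑ q, u q * P.om q p := by
  rw [toDat_ω]
  refine sum_congr rfl fun q _ => ?_
  rw [Finset.sum_eq_single p (fun i' _ h => by simp [Pi.single_apply, h]) (fun h => absurd (mem_univ _) h)]
  simp

/-- the quartic form on `X_0`, the first variable in coordinates -/
noncomputable def q0L (P : Arr k ι κ) (q : κ) : (κ → k) →ₗ[k] (κ → k) →ₗ[k] (κ → k) →ₗ[k] k :=
  LinearMap.mk₂ k (fun u v => ∑ d, (∑ b, ∑ c, u b * v c * P.q0 q b c d) • (LinearMap.proj d : (κ → k) →ₗ[k] k))
    (fun a b c => by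
      simp only [Pi.add_apply, add_mul, sum_add_distrib, add_smul])
    (fun a b c => by
      simp only [Pi.smul_apply, smul_eq_mul, mul_assoc, ← mul_sum, mul_smul, ← smul_sum])
    (fun a b c => by
      simp only [Pi.add_apply, mul_add, add_mul, sum_add_distrib, add_smul])
    (fun a b c => by
      simp only [Pi.smul_apply, smul_eq_mul, mul_assoc, mul_left_comm _ a, ← mul_sum, mul_smul, ← smul_sum])

theorem q0L_single (P : Arr k ι κ) (q u v w : κ) :
    q0L P q (Pi.single u 1) (Pi.single v 1) (Pi.single w 1) = P.q0 q u v w := by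
  show (∑ d, (∑ b, ∑ c, _ * _ * P.q0 q b c d) • (LinearMap.proj d : (κ → k) →ₗ[k] k)) _ = _
  rw [LinearMap.sum_apply]
  rw [Finset.sum_eq_single w (fun i' _ h => by simp [h]) (fun h => absurd (mem_univ _) h)]
  rw [Finset.sum_eq_single u (fun i' _ h => by simp [h]) (fun h => absurd (mem_univ _) h)]
  rw [Finset.sum_eq_single v (fun i' _ h => by simp [h]) (fun h => absurd (mem_univ _) h)]
  simp

/-- from arrays to linear maps -/
theorem IsDer.toDat {P : Arr k ι κ} {dl : ι → κ → k} {de : κ → ι → k} (h : P.IsDer dl de) :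
    P.toDat.IsDer (dMap dl) (eMap de) := by
  refine ⟨fun ξ u => ?_, fun ξ => ?_, fun x u ξ η => ?_, fun ξ hξ u v w => ?_⟩
  · induction ξ using dual_ind with
    | hz => simp
    | ha a b ha hb => simp only [LinearMap.add_apply, map_add, ha, hb]
    | hs c a ha => simp only [LinearMap.smul_apply, map_smul, ha]
    | h0 i =>
      induction u using pi_ind with
      | hz => simp
      | ha a b ha hb => simp only [map_add, ha, hb]
      | hs c a ha => simp only [map_smul, ha]
      | h0 p =>
        rw [ω_single, dMap_proj, eMap_single]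
        exact h.adj i p
  · induction ξ using dual_ind with
    | hz => simp
    | ha a b ha hb => simp only [map_add, ha, hb, add_zero]
    | hs c a ha => simp only [map_smul, ha, smul_zero]
    | h0 i =>
      ext j
      rw [dMap_proj, eMap_apply]
      exact h.sq i j
  · induction ξ using dual_ind with
    | hz => simp
    | ha a b ha hb => simp only [LinearMap.add_apply, map_add]; linear_combination ha + hb
    | hs c a ha => simp only [LinearMap.smul_apply, map_smul, smul_eq_mul]; linear_combination c * ha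
    | h0 j =>
      induction η using dual_ind with
      | hz => simp
      | ha a b ha hb => simp only [LinearMap.add_apply, map_add]; linear_combination ha + hb
      | hs c a ha => simp only [LinearMap.smul_apply, map_smul, smul_eq_mul]; linear_combination c * ha
      | h0 l =>
        induction x using pi_ind with
        | hz => simp
        | ha a b ha hb => simp only [LinearMap.add_apply, map_add]; linear_combination ha + hb
        | hs c a ha => simp only [LinearMap.smul_apply, map_smul, smul_eq_mul]; linear_combination c * ha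
        | h0 i =>
          induction u using pi_ind with
          | hz => simp
          | ha a b ha hb => simp only [LinearMap.add_apply, map_add]; linear_combination ha + hb
          | hs c a ha => simp only [LinearMap.smul_apply, map_smul, smul_eq_mul]; linear_combination c * ha
          | h0 p =>
            have := h.dq i j l p
            rw [eMap_single, dMap_proj, dMap_proj, σ_single, σ_single, ω_single, ω_single]
            simp only [LinearMap.proj_apply]
            rw [S_single, this]
            have e1 : ∀ l j, ∑ q, ∑ r, dl l q * P.sg i j q r * P.om r p =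
                ∑ q, (∑ p, dl l p * P.sg i j p q) * P.om q p := by
              intro l j
              rw [sum_comm]
              exact sum_congr rfl fun q _ => by rw [sum_mul]
            have e2 : ∀ l, (Pi.single i 1 : ι → k) l = if i = l then 1 else 0 := by
              intro l
              rw [Pi.single_apply]
              exact if_congr eq_comm rfl rfl
            rw [e1, e1, e2, e2]
            simp only [ite_mul, one_mul, zero_mul]
  · have key : ∀ (ξ : Dual k (ι → k)) (u v w : κ → k), ∑ q, dMap dl ξ q * q0L P q u v w +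
        (P.toDat.ω (P.toDat.σ (eMap de u) ξ v) w + P.toDat.ω (P.toDat.σ (eMap de v) ξ w) u +
          P.toDat.ω (P.toDat.σ (eMap de w) ξ u) v) = 0 := by
      intro ξ u v w
      induction ξ using dual_ind with
      | hz => simp
      | ha a b ha hb =>
        simp only [LinearMap.add_apply, map_add, Pi.add_apply, add_mul, sum_add_distrib]
        linear_combination ha + hb
      | hs c a ha =>
        simp only [LinearMap.smul_apply, map_smul, Pi.smul_apply, smul_eq_mul, mul_assoc, ← mul_sum]
        linear_combination c * ha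
      | h0 j =>
        induction u using pi_ind with
        | hz => simp
        | ha a b ha hb =>
          simp only [LinearMap.add_apply, map_add, mul_add, sum_add_distrib]
          linear_combination ha + hb
        | hs c a ha =>
          simp only [LinearMap.smul_apply, map_smul, smul_eq_mul, mul_left_comm _ c, ← mul_sum]
          linear_combination c * ha
        | h0 p =>
          induction v using pi_ind with
          | hz => simp
          | ha a b ha hb =>
            simp only [LinearMap.add_apply, map_add, mul_add, sum_add_distrib]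
            linear_combination ha + hb
          | hs c a ha =>
            simp only [LinearMap.smul_apply, map_smul, smul_eq_mul, mul_left_comm _ c, ← mul_sum]
            linear_combination c * ha
          | h0 q =>
            induction w using pi_ind with
            | hz => simp
            | ha a b ha hb =>
              simp only [LinearMap.add_apply, map_add, mul_add, sum_add_distrib]
              linear_combination ha + hb
            | hs c a ha =>
              simp only [LinearMap.smul_apply, map_smul, smul_eq_mul, mul_left_comm _ c, ← mul_sum]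
              linear_combination c * ha
            | h0 r =>
              have := h.dq2 j p q r
              have e1 : ∀ p q r, P.toDat.ω (P.toDat.σ (eMap de (Pi.single p 1)) (LinearMap.proj j) (Pi.single q 1))
                  (Pi.single r 1) = ∑ m, ∑ s, de p m * P.sg m j q s * P.om s r := by
                intro p q r
                rw [ω_single, sum_comm]
                refine sum_congr rfl fun s _ => ?_
                rw [toDat_σ, ← sum_mul]
                congr 1
                rw [Finset.sum_eq_single q (fun i' _ h => by simp [h]) (fun h => absurd (mem_univ _) h)]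
                rw [Pi.single_eq_same, mul_one]
                refine sum_congr rfl fun m _ => ?_
                rw [Finset.sum_eq_single j (fun j' _ h => by simp [Ne.symm h]) (fun h => absurd (mem_univ _) h)]
                rw [eMap_single]
                simp
              rw [e1, e1, e1, dMap_proj]
              simp only [q0L_single]
              exact this
    have h1 := key ξ u v w
    rw [hξ] at h1
    simpa using h1

theorem toDat_δ_ne {dl : ι → κ → k} {i : ι} {p : κ} (h : dl i p ≠ 0) : dMap dl ≠ 0 := by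
  intro h0
  apply h
  have := congrArg (fun f => f (LinearMap.proj i) p) h0
  simp only [LinearMap.zero_apply, Pi.zero_apply] at this
  rw [dMap_proj] at this
  exact this

/-- the leading form, general version -/
theorem IsDer.lead [IsDomain A] {P : Arr A ι κ} {dl : ι → κ → A} {de : κ → ι → A} (h : P.IsDer dl de)
    (f : A →+* k) {c : A} (hc : c ≠ 0) (dl' : ι → κ → A) (hdl : ∀ i p, dl i p = c * dl' i p)
    (hne : ∃ i p, f (dl' i p) ≠ 0) :
    ∃ (δ : Dual k (ι → k) →ₗ[k] (κ → k)) (del : (κ → k) →ₗ[k] (ι → k)), (P.map f).toDat.IsDer δ del ∧ δ ≠ 0 := by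
  obtain ⟨i, p, hip⟩ := hne
  exact ⟨_, _, ((h.div hc dl' hdl).map f).toDat, toDat_δ_ne (i := i) (p := p) hip⟩

/-- the leading form over a valuation ring -/
theorem exists_lead {V : Type*} [CommRing V] [IsDomain V] [ValuationRing V] {P : Arr V ι κ}
    {dl : ι → κ → V} {de : κ → ι → V} (h : P.IsDer dl de) (hne : ∃ i p, dl i p ≠ 0) :
    ∃ (δ : Dual (IsLocalRing.ResidueField V) (ι → IsLocalRing.ResidueField V) →ₗ[IsLocalRing.ResidueField V]
        (κ → IsLocalRing.ResidueField V))
      (del : (κ → IsLocalRing.ResidueField V) →ₗ[IsLocalRing.ResidueField V] (ι → IsLocalRing.ResidueField V)),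
      (P.map (IsLocalRing.residue V)).toDat.IsDer δ del ∧ δ ≠ 0 := by
  classical
  -- an entry which divides all others
  have hfin : ∀ s : Finset (ι × κ), s.Nonempty → ∃ a ∈ s, ∀ b ∈ s, dl a.1 a.2 ∣ dl b.1 b.2 := by
    intro s hs
    induction hs using Finset.Nonempty.cons_induction with
    | singleton a => exact ⟨a, mem_singleton_self a, fun b hb => by rw [mem_singleton.1 hb]⟩
    | cons a s ha hs ih =>
      obtain ⟨c, hc, hcs⟩ := ih
      rcases ValuationRing.dvd_total (dl a.1 a.2) (dl c.1 c.2) with h1 | h1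
      · refine ⟨a, mem_cons_self a s, fun b hb => ?_⟩
        rcases mem_cons.1 hb with rfl | hb
        · exact dvd_rfl
        · exact h1.trans (hcs b hb)
      · refine ⟨c, mem_cons_of_mem hc, fun b hb => ?_⟩
        rcases mem_cons.1 hb with rfl | hb
        · exact h1
        · exact hcs b hb
  obtain ⟨i₀, p₀, h₀⟩ := hne
  obtain ⟨⟨i, p⟩, -, hdvd⟩ := hfin univ ⟨(i₀, p₀), mem_univ _⟩
  have hne : dl i p ≠ 0 := fun h0 => h₀ (by
    have := hdvd (i₀, p₀) (mem_univ _)
    simp only [h0, zero_dvd_iff] at this
    exact this)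
  have hall : ∀ j q, dl i p ∣ dl j q := fun j q => hdvd (j, q) (mem_univ _)
  choose dl' hdl' using hall
  refine h.lead (IsLocalRing.residue V) hne dl' hdl' ⟨i, p, ?_⟩
  have : dl' i p = 1 := by
    have h2 := hdl' i p
    exact (mul_left_cancel₀ hne (by rw [mul_one]; exact h2)).symm
  rw [this, map_one]
  exact one_ne_zero

end Arr

end LicciCF

end

section

/-!
# Closed fibre packages from arrays of coefficients
-/

set_option autoImplicit false
set_option linter.unusedSectionVars false
set_option linter.unusedSimpArgs false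

open Module Finset

namespace LicciCF

/-- independence of the basis -/
theorem sum_indep' {k C M : Type*} [Field k] [AddCommGroup C] [Module k C] [AddCommGroup M] [Module k M]
    {ι ι' : Type*} [Fintype ι] [Fintype ι'] (e : Basis ι k C) (e' : Basis ι' k C) (F : C →ₗ[k] Dual k C →ₗ[k] M) :
    ∑ i, F (e i) (e.coord i) = ∑ j, F (e' j) (e'.coord j) := by
  classical
  have h1 : ∀ i, F (e i) (e.coord i) = ∑ j, e'.repr (e i) j • F (e' j) (e.coord i) := by
    intro i
    conv_lhs => rw [← e'.sum_repr (e i)]
    simp only [map_sum, LinearMap.sum_apply, map_smul, LinearMap.smul_apply]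
  have h2 : ∀ j, e'.coord j = ∑ i, e'.repr (e i) j • e.coord i := by
    intro j
    apply e.ext
    intro i
    rw [LinearMap.sum_apply]
    rw [Finset.sum_eq_single i (fun b _ hb => by simp [Finsupp.single_apply, Ne.symm hb])
      (fun h => absurd (mem_univ _) h)]
    simp
  rw [sum_congr rfl fun i _ => h1 i, sum_comm]
  refine sum_congr rfl fun j _ => ?_
  conv_rhs => rw [h2 j]
  simp only [map_sum, map_smul]

theorem sum_single_mul {k ι : Type*} [Field k] [Fintype ι] [DecidableEq ι] (f : ι → k) (j : ι) :
    ∑ x, (Pi.single j 1 : ι → k) x * f x = f j := by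
  rw [Finset.sum_eq_single j (fun b _ hb => by simp [hb]) (fun h => absurd (mem_univ _) h), Pi.single_eq_same, one_mul]

theorem trace_pi {k ι : Type*} [Field k] [Fintype ι] [DecidableEq ι] (f : (ι → k) →ₗ[k] (ι → k)) :
    LinearMap.trace k (ι → k) f = ∑ i, f (Pi.single i 1) i := by
  rw [LinearMap.trace_eq_matrix_trace k (Pi.basisFun k ι) f, Matrix.trace]
  refine sum_congr rfl fun i _ => ?_
  rw [Matrix.diag_apply, LinearMap.toMatrix_apply]
  simp

namespace Arr

variable {ι κ : Type} {k : Type*} [Field k] [CharZero k] [Fintype ι] [Fintype κ] [DecidableEq ι] [DecidableEq κ]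

/-- coefficients of `R(e_i,ξ^j)` -/
def Rr (P : Arr k ι κ) (i j : ι) (p q : κ) : k := (if i = j then if p = q then 1 else 0 else 0) + P.sg i j p q

/-- coefficients of `T(e_i,ξ^j) e_l` -/
def Tt (P : Arr k ι κ) (i j l m : ι) : k :=
  2 * (if j = l then if i = m then 1 else 0 else 0) - (if i = j then if l = m then 1 else 0 else 0) - P.S i l j m

/-- array form of `Dat.IsPkg` -/
structure IsPkg (P : Arr k ι κ) : Prop where
  alt : ∀ p, P.om p p = 0
  anti : ∀ p q, P.om p q = -P.om q p
  nondeg : ∀ u : κ → k, (∀ q, ∑ p, u p * P.om p q = 0) → u = 0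
  sp : ∀ i j p q, ∑ r, P.sg i j p r * P.om r q + ∑ r, P.sg i j q r * P.om p r = 0
  S_alt : ∀ i l m, P.S i i l m = 0
  S_anti : ∀ i j l m, P.S i j l m = -P.S j i l m
  S_skew : ∀ i j l m, P.S i j l m + P.S i j m l = 0
  dim : Fintype.card κ = 56 + 2 * Fintype.card ι
  d1 : ∀ i j p q, ∑ m, ∑ r, P.Rr i m p r * P.Rr m j r q = 12 * P.Rr i j p q
  d2 : ∀ i j l m, ∑ r, ∑ s, P.S i j r s * P.S s r l m = 24 * P.S i j l m
  d0 : ∀ i j i' j', ∑ l, ∑ m, P.Tt i' j' l m * P.Tt i j m l - 2⁻¹ * ∑ p, ∑ q, P.sg i' j' p q * P.sg i j q p =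
    12 * P.Tt i j i' j'

theorem R_single (P : Arr k ι κ) (i j : ι) (u : κ → k) (q : κ) :
    P.toDat.R (Pi.single i 1) (LinearMap.proj j) u q = ∑ p, u p * P.Rr i j p q := by
  have h1 : (Pi.single i 1 : ι → k) j = if i = j then 1 else 0 := by
    rw [Pi.single_apply]; exact if_congr eq_comm rfl rfl
  rw [Dat.R, LinearMap.add_apply, LinearMap.smul_apply, LinearMap.id_apply, σ_single, LinearMap.proj_apply, h1]
  simp only [Pi.add_apply, Pi.smul_apply, smul_eq_mul, Rr, mul_add, sum_add_distrib]
  congr 1
  rw [Finset.sum_eq_single q (fun b _ hb => by simp [hb]) (fun h => absurd (mem_univ _) h)]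
  simp only [if_true]
  ring

theorem T_single (P : Arr k ι κ) (i j l : ι) (m : ι) :
    P.toDat.T (Pi.single i 1) (LinearMap.proj j) (Pi.single l 1) m = P.Tt i j l m := by
  have h1 : ∀ i j, (Pi.single i 1 : ι → k) j = if i = j then 1 else 0 := by
    intro i j
    rw [Pi.single_apply]; exact if_congr eq_comm rfl rfl
  have h2 : ((P.toDat.S (Pi.single i 1)).flip (LinearMap.proj j)) (Pi.single l 1) m = P.S i l j m := by
    rw [LinearMap.flip_apply, S_single,
      Finset.sum_eq_single l (fun b _ hb => by simp [hb]) (fun h => absurd (mem_univ _) h)]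
    simp
  simp only [Dat.T, LinearMap.sub_apply, LinearMap.smul_apply, Pi.sub_apply, h2, Pi.smul_apply, LinearMap.smulRight_apply,
    LinearMap.proj_apply, LinearMap.id_apply, smul_eq_mul, h1, Tt]
  have h3 : (if l = j then (1 : k) else 0) = if j = l then 1 else 0 := if_congr eq_comm rfl rfl
  rw [h3]
  split_ifs <;> ring

theorem R_add_left (P : Arr k ι κ) (x y : ι → k) (ξ : Dual k (ι → k)) :
    P.toDat.R (x + y) ξ = P.toDat.R x ξ + P.toDat.R y ξ := by
  simp only [Dat.R, map_add, add_smul, LinearMap.add_apply]; abel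
theorem R_smul_left (P : Arr k ι κ) (c : k) (x : ι → k) (ξ : Dual k (ι → k)) :
    P.toDat.R (c • x) ξ = c • P.toDat.R x ξ := by
  simp only [Dat.R, map_smul, smul_eq_mul, mul_smul, LinearMap.smul_apply, smul_add]
theorem R_add_right (P : Arr k ι κ) (x : ι → k) (ξ η : Dual k (ι → k)) :
    P.toDat.R x (ξ + η) = P.toDat.R x ξ + P.toDat.R x η := by
  simp only [Dat.R, map_add, add_smul, LinearMap.add_apply]; abel
theorem R_smul_right (P : Arr k ι κ) (c : k) (x : ι → k) (ξ : Dual k (ι → k)) :
    P.toDat.R x (c • ξ) = c • P.toDat.R x ξ := by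
  simp only [Dat.R, map_smul, smul_eq_mul, mul_smul, LinearMap.smul_apply, smul_add]

theorem T_add_left (P : Arr k ι κ) (x y : ι → k) (ξ : Dual k (ι → k)) :
    P.toDat.T (x + y) ξ = P.toDat.T x ξ + P.toDat.T y ξ := by
  refine LinearMap.ext fun z => ?_
  simp only [Dat.T, LinearMap.sub_apply, LinearMap.smul_apply, LinearMap.smulRight_apply, LinearMap.id_apply,
    LinearMap.flip_apply, map_add, LinearMap.add_apply]
  module
theorem T_smul_left (P : Arr k ι κ) (c : k) (x : ι → k) (ξ : Dual k (ι → k)) :
    P.toDat.T (c • x) ξ = c • P.toDat.T x ξ := by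
  refine LinearMap.ext fun z => ?_
  simp only [Dat.T, LinearMap.sub_apply, LinearMap.smul_apply, LinearMap.smulRight_apply, LinearMap.id_apply,
    LinearMap.flip_apply, map_smul, LinearMap.add_apply, smul_eq_mul]
  module
theorem T_add_right (P : Arr k ι κ) (x : ι → k) (ξ η : Dual k (ι → k)) :
    P.toDat.T x (ξ + η) = P.toDat.T x ξ + P.toDat.T x η := by
  refine LinearMap.ext fun z => ?_
  simp only [Dat.T, LinearMap.sub_apply, LinearMap.smul_apply, LinearMap.smulRight_apply, LinearMap.id_apply,
    LinearMap.flip_apply, map_add, LinearMap.add_apply]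
  module
theorem T_smul_right (P : Arr k ι κ) (c : k) (x : ι → k) (ξ : Dual k (ι → k)) :
    P.toDat.T x (c • ξ) = c • P.toDat.T x ξ := by
  refine LinearMap.ext fun z => ?_
  simp only [Dat.T, LinearMap.sub_apply, LinearMap.smul_apply, LinearMap.smulRight_apply, LinearMap.id_apply,
    LinearMap.flip_apply, map_smul, LinearMap.add_apply, smul_eq_mul]
  module

theorem pi_ext_single {M : Type*} [AddCommGroup M] [Module k M] {ι : Type*} [Fintype ι] [DecidableEq ι]
    {f g : (ι → k) →ₗ[k] M} (h : ∀ i, f (Pi.single i 1) = g (Pi.single i 1)) : f = g := by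
  apply (Pi.basisFun k ι).ext
  intro i
  rw [Pi.basisFun_apply]
  exact h i

theorem coord_basisFun (i : ι) : (Pi.basisFun k ι).coord i = LinearMap.proj i := by
  ext x
  simp

/-- closed fibre packages from arrays -/
theorem IsPkg.toDat {P : Arr k ι κ} (h : P.IsPkg) : P.toDat.IsPkg where
  alt u := by
    have h1 : P.toDat.ω u u = -P.toDat.ω u u := by
      conv_lhs => rw [toDat_ω, sum_comm]
      rw [toDat_ω, ← sum_neg_distrib]
      refine sum_congr rfl fun p _ => ?_
      rw [← sum_neg_distrib]
      exact sum_congr rfl fun q _ => by rw [h.anti q p]; ring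
    linear_combination (1 / 2 : k) * h1
  nondeg u hu := by
    apply h.nondeg
    intro q
    rw [← ω_single]
    exact hu _
  sp x ξ u w := by
    induction x using pi_ind with
    | hz => simp
    | ha a b ha hb => simp only [LinearMap.add_apply, map_add]; linear_combination ha + hb
    | hs c a ha => simp only [LinearMap.smul_apply, map_smul, smul_eq_mul]; linear_combination c * ha
    | h0 i =>
      induction ξ using dual_ind with
      | hz => simp
      | ha a b ha hb => simp only [LinearMap.add_apply, map_add]; linear_combination ha + hb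
      | hs c a ha => simp only [LinearMap.smul_apply, map_smul, smul_eq_mul]; linear_combination c * ha
      | h0 j =>
        induction u using pi_ind with
        | hz => simp
        | ha a b ha hb => simp only [LinearMap.add_apply, map_add]; linear_combination ha + hb
        | hs c a ha => simp only [LinearMap.smul_apply, map_smul, smul_eq_mul]; linear_combination c * ha
        | h0 p =>
          induction w using pi_ind with
          | hz => simp
          | ha a b ha hb => simp only [LinearMap.add_apply, map_add]; linear_combination ha + hb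
          | hs c a ha => simp only [LinearMap.smul_apply, map_smul, smul_eq_mul]; linear_combination c * ha
          | h0 q =>
            have e1 := h.sp i j p q
            rw [ω_single, σ_single, σ_single]
            have e2 : ∀ p, (fun q => ∑ r, (Pi.single p 1 : κ → k) r * P.sg i j r q) = P.sg i j p := by
              intro p
              ext q
              rw [Finset.sum_eq_single p (fun b _ hb => by simp [hb]) (fun h => absurd (mem_univ _) h)]
              simp
            rw [e2, e2]
            have e3 : P.toDat.ω (Pi.single p 1) (P.sg i j q) = ∑ r, P.sg i j q r * P.om p r := by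
              rw [toDat_ω, Finset.sum_eq_single p (fun b _ hb => by simp [hb]) (fun h => absurd (mem_univ _) h)]
              simp
            rw [e3]
            exact e1
  S_alt x := by
    have h1 : ∀ x y, P.toDat.S x y = -P.toDat.S y x := by
      intro x y
      induction x using pi_ind with
      | hz => simp
      | ha a b ha hb => simp only [LinearMap.add_apply, map_add, ha, hb, neg_add]
      | hs c a ha => simp only [LinearMap.smul_apply, map_smul, ha, smul_neg]
      | h0 i =>
        induction y using pi_ind with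
        | hz => simp
        | ha a b ha hb => simp only [LinearMap.add_apply, map_add, ha, hb, neg_add]
        | hs c a ha => simp only [LinearMap.smul_apply, map_smul, ha, smul_neg]
        | h0 j =>
          ext1 ξ
          induction ξ using dual_ind with
          | hz => simp
          | ha a b ha hb => simp only [map_add, ha, hb]
          | hs c a ha => simp only [map_smul, ha]
          | h0 l =>
            ext m
            rw [LinearMap.neg_apply, Pi.neg_apply, S_single, S_single,
              Finset.sum_eq_single j (fun b _ hb => by simp [hb]) (fun h => absurd (mem_univ _) h),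
              Finset.sum_eq_single i (fun b _ hb => by simp [hb]) (fun h => absurd (mem_univ _) h),
              Pi.single_eq_same, Pi.single_eq_same, h.S_anti]
            ring
    have h2 := h1 x x
    have h3 : (2 : k) • P.toDat.S x x = 0 := by
      rw [two_smul]
      nth_rewrite 1 [h2]
      exact neg_add_cancel _
    exact (smul_eq_zero.1 h3).resolve_left two_ne_zero
  S_skew x y ξ η := by
    induction x using pi_ind with
    | hz => simp
    | ha a b ha hb => simp only [LinearMap.add_apply, map_add]; linear_combination ha + hb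
    | hs c a ha => simp only [LinearMap.smul_apply, map_smul, smul_eq_mul]; linear_combination c * ha
    | h0 i =>
      induction y using pi_ind with
      | hz => simp
      | ha a b ha hb => simp only [LinearMap.add_apply, map_add]; linear_combination ha + hb
      | hs c a ha => simp only [LinearMap.smul_apply, map_smul, smul_eq_mul]; linear_combination c * ha
      | h0 j =>
        induction ξ using dual_ind with
        | hz => simp
        | ha a b ha hb => simp only [LinearMap.add_apply, map_add]; linear_combination ha + hb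
        | hs c a ha => simp only [LinearMap.smul_apply, map_smul, smul_eq_mul]; linear_combination c * ha
        | h0 l =>
          induction η using dual_ind with
          | hz => simp
          | ha a b ha hb => simp only [LinearMap.add_apply, map_add]; linear_combination ha + hb
          | hs c a ha => simp only [LinearMap.smul_apply, map_smul, smul_eq_mul]; linear_combination c * ha
          | h0 m =>
            rw [LinearMap.proj_apply, LinearMap.proj_apply, S_single, S_single,
              Finset.sum_eq_single j (fun b _ hb => by simp [hb]) (fun h => absurd (mem_univ _) h),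
              Finset.sum_eq_single j (fun b _ hb => by simp [hb]) (fun h => absurd (mem_univ _) h),
              Pi.single_eq_same, one_mul, one_mul]
            exact h.S_skew i j l m
  dim := by
    rw [Module.finrank_fintype_fun_eq_card, Module.finrank_fintype_fun_eq_card]
    exact h.dim
  d1 ι' _ e x ξ := by
    let F : (ι → k) →ₗ[k] Dual k (ι → k) →ₗ[k] ((κ → k) →ₗ[k] (κ → k)) :=
      LinearMap.mk₂ k (fun c ζ => P.toDat.R c ξ ∘ₗ P.toDat.R x ζ)
        (fun a b c => by rw [R_add_left, LinearMap.add_comp])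
        (fun a b c => by rw [R_smul_left, LinearMap.smul_comp])
        (fun a b c => by rw [R_add_right, LinearMap.comp_add])
        (fun a b c => by rw [R_smul_right, LinearMap.comp_smul])
    have h1 := sum_indep' e (Pi.basisFun k ι) F
    have h2 : ∑ i, F (e i) (e.coord i) = ∑ i, P.toDat.R (e i) ξ ∘ₗ P.toDat.R x (e.coord i) := rfl
    rw [← h2, h1]
    have h3 : ∀ j, F (Pi.basisFun k ι j) ((Pi.basisFun k ι).coord j) =
        P.toDat.R (Pi.single j 1) ξ ∘ₗ P.toDat.R x (LinearMap.proj j) := by
      intro j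
      rw [coord_basisFun, Pi.basisFun_apply]
      rfl
    rw [sum_congr rfl fun j _ => h3 j]
    clear_value F
    clear h1 h2 h3
    induction x using pi_ind with
    | hz =>
      have : ∀ ξ, P.toDat.R 0 ξ = 0 := fun ξ => by simp [Dat.R]
      simp [this]
    | ha a b ha hb => simp only [R_add_left, LinearMap.comp_add, sum_add_distrib, ha, hb, smul_add]
    | hs c a ha =>
      simp only [R_smul_left, LinearMap.comp_smul, ← smul_sum, ha]
      rw [smul_comm]
    | h0 i =>
      induction ξ using dual_ind with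
      | hz =>
        have : ∀ x, P.toDat.R x 0 = 0 := fun ξ => by simp [Dat.R]
        simp [this]
      | ha a b ha hb => simp only [R_add_right, LinearMap.add_comp, sum_add_distrib, ha, hb, smul_add]
      | hs c a ha =>
        simp only [R_smul_right, LinearMap.smul_comp, ← smul_sum, ha]
        rw [smul_comm]
      | h0 j =>
        apply pi_ext_single
        intro p
        ext q
        rw [LinearMap.sum_apply, Finset.sum_apply, LinearMap.smul_apply, Pi.smul_apply, R_single, smul_eq_mul]
        rw [Finset.sum_eq_single p (fun b _ hb => by simp [hb]) (fun h => absurd (mem_univ _) h),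
          Pi.single_eq_same, one_mul, ← h.d1 i j p q]
        refine sum_congr rfl fun m _ => ?_
        rw [LinearMap.comp_apply, R_single]
        refine sum_congr rfl fun r _ => ?_
        rw [R_single, Finset.sum_eq_single p (fun b _ hb => by simp [hb]) (fun h => absurd (mem_univ _) h),
          Pi.single_eq_same, one_mul]
  d2 ι' _ e x y := by
    let F : (ι → k) →ₗ[k] Dual k (ι → k) →ₗ[k] (Dual k (ι → k) →ₗ[k] (ι → k)) :=
      LinearMap.mk₂ k (fun c ζ => P.toDat.S (P.toDat.S x y ζ) c)
        (fun a b c => by rw [map_add])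
        (fun a b c => by rw [map_smul])
        (fun a b c => by rw [map_add, map_add, LinearMap.add_apply])
        (fun a b c => by rw [map_smul, map_smul, LinearMap.smul_apply])
    have h1 := sum_indep' e (Pi.basisFun k ι) F
    have h2 : ∑ i, F (e i) (e.coord i) = ∑ i, P.toDat.S (P.toDat.S x y (e.coord i)) (e i) := rfl
    rw [← h2, h1]
    have h3 : ∀ j, F (Pi.basisFun k ι j) ((Pi.basisFun k ι).coord j) =
        P.toDat.S (P.toDat.S x y (LinearMap.proj j)) (Pi.single j 1) := by
      intro j
      rw [coord_basisFun, Pi.basisFun_apply]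
      rfl
    rw [sum_congr rfl fun j _ => h3 j]
    clear_value F
    clear h1 h2 h3
    induction x using pi_ind with
    | hz => simp
    | ha a b ha hb => simp only [map_add, LinearMap.add_apply, sum_add_distrib, ha, hb, smul_add]
    | hs c a ha =>
      simp only [map_smul, LinearMap.smul_apply, ← smul_sum, ha]
      rw [smul_comm]
    | h0 i =>
      induction y using pi_ind with
      | hz => simp
      | ha a b ha hb => simp only [map_add, LinearMap.add_apply, sum_add_distrib, ha, hb, smul_add]
      | hs c a ha =>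
        simp only [map_smul, LinearMap.smul_apply, ← smul_sum, ha]
        rw [smul_comm]
      | h0 j =>
        ext1 ξ
        induction ξ using dual_ind with
        | hz => simp
        | ha a b ha hb => simp only [map_add, ha, hb]
        | hs c a ha => simp only [map_smul, ha]
        | h0 l =>
          ext m
          rw [LinearMap.sum_apply, Finset.sum_apply, LinearMap.smul_apply, Pi.smul_apply, S_single, smul_eq_mul,
            sum_single_mul (fun x => P.S i x l m), ← h.d2 i j l m]
          refine sum_congr rfl fun r _ => ?_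
          have e1 : ∀ z : ι → k, P.toDat.S z (Pi.single r 1) (LinearMap.proj l) m = ∑ s, z s * P.S s r l m := by
            intro z
            induction z using pi_ind with
            | hz => simp
            | ha a b ha hb =>
              simp only [map_add, LinearMap.add_apply, Pi.add_apply, add_mul, sum_add_distrib, ha, hb]
            | hs c a ha =>
              simp only [map_smul, LinearMap.smul_apply, Pi.smul_apply, smul_eq_mul, mul_assoc, ← mul_sum, ha]
            | h0 s =>
              rw [S_single, Finset.sum_eq_single r (fun b _ hb => by simp [hb]) (fun h => absurd (mem_univ _) h),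
                Finset.sum_eq_single s (fun b _ hb => by simp [hb]) (fun h => absurd (mem_univ _) h)]
              simp
          rw [e1]
          refine sum_congr rfl fun s _ => ?_
          rw [S_single, sum_single_mul (fun x => P.S i x r s)]
  d0 x y ξ η := by
    induction x using pi_ind with
    | hz =>
      have : ∀ ξ, P.toDat.T 0 ξ = 0 := fun ξ => LinearMap.ext fun z => by simp [Dat.T, LinearMap.flip_apply]
      simp [this]
    | ha a b ha hb =>
      simp only [T_add_left, LinearMap.add_comp, map_add, LinearMap.add_apply]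
      linear_combination ha + hb
    | hs c a ha =>
      simp only [T_smul_left, LinearMap.smul_comp, map_smul, LinearMap.smul_apply, smul_eq_mul]
      linear_combination c * ha
    | h0 i =>
      induction ξ using dual_ind with
      | hz =>
        have : ∀ x, P.toDat.T x 0 = 0 := fun ξ => LinearMap.ext fun z => by simp [Dat.T, LinearMap.flip_apply]
        simp [this]
      | ha a b ha hb =>
        simp only [T_add_right, LinearMap.add_comp, map_add, LinearMap.add_apply]
        linear_combination ha + hb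
      | hs c a ha =>
        simp only [T_smul_right, LinearMap.smul_comp, map_smul, LinearMap.smul_apply, smul_eq_mul]
        linear_combination c * ha
      | h0 j =>
        induction y using pi_ind with
        | hz =>
          have : ∀ ξ, P.toDat.T 0 ξ = 0 := fun ξ => LinearMap.ext fun z => by simp [Dat.T, LinearMap.flip_apply]
          simp [this]
        | ha a b ha hb =>
          simp only [T_add_left, LinearMap.comp_add, map_add, LinearMap.add_apply]
          linear_combination ha + hb
        | hs c a ha =>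
          simp only [T_smul_left, LinearMap.comp_smul, map_smul, LinearMap.smul_apply, smul_eq_mul]
          linear_combination c * ha
        | h0 i' =>
          induction η using dual_ind with
          | hz =>
            have : ∀ x, P.toDat.T x 0 = 0 := fun ξ => LinearMap.ext fun z => by simp [Dat.T, LinearMap.flip_apply]
            simp [this]
          | ha a b ha hb =>
            simp only [T_add_right, LinearMap.comp_add, map_add, LinearMap.add_apply]
            linear_combination ha + hb
          | hs c a ha =>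
            simp only [T_smul_right, LinearMap.comp_smul, map_smul, LinearMap.smul_apply, smul_eq_mul]
            linear_combination c * ha
          | h0 j' =>
            have e1 : ∀ (z : ι → k) (m : ι), P.toDat.T (Pi.single i 1) (LinearMap.proj j) z m =
                ∑ l, z l * P.Tt i j l m := by
              intro z m
              induction z using pi_ind with
              | hz => simp
              | ha a b ha hb => simp only [map_add, Pi.add_apply, add_mul, sum_add_distrib, ha, hb]
              | hs c a ha => simp only [map_smul, Pi.smul_apply, smul_eq_mul, mul_assoc, ← mul_sum, ha]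
              | h0 s =>
                rw [T_single, Finset.sum_eq_single s (fun b _ hb => by simp [hb]) (fun h => absurd (mem_univ _) h),
                  Pi.single_eq_same, one_mul]
            have e2 : LinearMap.trace k (ι → k) (P.toDat.T (Pi.single i 1) (LinearMap.proj j) ∘ₗ
                P.toDat.T (Pi.single i' 1) (LinearMap.proj j')) = ∑ l, ∑ m, P.Tt i' j' l m * P.Tt i j m l := by
              rw [trace_pi]
              refine sum_congr rfl fun l _ => ?_
              rw [LinearMap.comp_apply, e1]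
              refine sum_congr rfl fun m _ => ?_
              rw [T_single]
            have e3 : LinearMap.trace k (κ → k) (P.toDat.σ (Pi.single i 1) (LinearMap.proj j) ∘ₗ
                P.toDat.σ (Pi.single i' 1) (LinearMap.proj j')) = ∑ p, ∑ q, P.sg i' j' p q * P.sg i j q p := by
              rw [trace_pi]
              refine sum_congr rfl fun p _ => ?_
              rw [LinearMap.comp_apply, σ_single, σ_single]
              refine sum_congr rfl fun q _ => ?_
              beta_reduce
              rw [sum_single_mul (fun x => P.sg i' j' x q)]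
            rw [e2, e3, LinearMap.proj_apply, T_single]
            exact h.d0 i j i' j'

end Arr

end LicciCF

end

section

/-!
# CF1: the dimension is two or twelve
-/

set_option autoImplicit false
set_option linter.unusedSectionVars false

open Module

namespace LicciCF

section

variable {k C B : Type*} [Field k] [CharZero k] [AddCommGroup C] [Module k C] [AddCommGroup B]
  [Module k B] [FiniteDimensional k C] [FiniteDimensional k B]

/-- CF1 -/
theorem sum_indep {M : Type*} [AddCommGroup M] [Module k M] {ι ι' : Type*} [Fintype ι]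
    [Fintype ι'] (e : Basis ι k C) (e' : Basis ι' k C) (F : C →ₗ[k] Dual k C →ₗ[k] M) :
    ∑ i, F (e i) (e.coord i) = ∑ j, F (e' j) (e'.coord j) := by
  classical
  have h1 : ∀ i, F (e i) (e.coord i) = ∑ j, e'.coord j (e i) • F (e' j) (e.coord i) := by
    intro i
    have h := e'.sum_repr (e i)
    calc F (e i) (e.coord i) = F (∑ j, e'.repr (e i) j • e' j) (e.coord i) := by rw [h]
      _ = _ := by
        rw [map_sum, LinearMap.sum_apply]
        refine Finset.sum_congr rfl fun j _ => ?_
        rw [map_smul, LinearMap.smul_apply, Basis.coord_apply]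
  have h2 : ∀ j, F (e' j) (e'.coord j) = ∑ i, e'.coord j (e i) • F (e' j) (e.coord i) := by
    intro j
    have h := e.sum_dual_apply_smul_coord (e'.coord j)
    calc F (e' j) (e'.coord j) = F (e' j) (∑ i, e'.coord j (e i) • e.coord i) := by rw [h]
      _ = _ := by
        rw [map_sum]
        exact Finset.sum_congr rfl fun i _ => map_smul _ _ _
  rw [Finset.sum_congr rfl fun i _ => h1 i, Finset.sum_congr rfl fun j _ => h2 j, Finset.sum_comm]

namespace CF1

/-- the trace as a sum -/
theorem trace_eq {V : Type*} [AddCommGroup V] [Module k V] {ι : Type} [Fintype ι]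
    (e : Basis ι k V) (F : V →ₗ[k] V) : LinearMap.trace k V F = ∑ j, e.coord j (F (e j)) := by
  classical
  rw [LinearMap.trace_eq_matrix_trace k e F, Matrix.trace]
  refine Finset.sum_congr rfl fun j _ => ?_
  rw [Matrix.diag_apply, LinearMap.toMatrix_apply, Basis.coord_apply]

variable {ι : Type} [Fintype ι] (e : Basis ι k C)

theorem sum_coord_smul (x : C) : ∑ i, e.coord i x • e i = x := by
  simpa only [Basis.coord_apply] using e.sum_repr x

theorem sum_coord_smul_dual (ξ : Dual k C) : ∑ i, ξ (e i) • e.coord i = ξ :=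
  e.sum_dual_apply_smul_coord ξ

theorem sum_pair (x : C) (ξ : Dual k C) : ∑ i, e.coord i x * ξ (e i) = ξ x := by
  conv_rhs => rw [← sum_coord_smul e x]
  rw [map_sum]
  exact Finset.sum_congr rfl fun i _ => by rw [map_smul, smul_eq_mul]

theorem coord_self (i : ι) : e.coord i (e i) = 1 := by
  rw [Basis.coord_apply, Basis.repr_self, Finsupp.single_eq_same]

theorem sum_one : ∑ i, e.coord i (e i) = (finrank k C : k) := by
  rw [Finset.sum_congr rfl fun i _ => coord_self e i, Finset.sum_const, Finset.card_univ,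
    nsmul_eq_mul, mul_one, Module.finrank_eq_card_basis e]

/-- an element of a finite dimensional space is determined by the functionals -/
theorem ext_dual {x y : C} (h : ∀ η : Dual k C, η x = η y) : x = y := by
  rw [← sub_eq_zero]
  refine (Module.forall_dual_apply_eq_zero_iff k (x - y)).1 fun η => ?_
  rw [map_sub, h, sub_self]

variable {P : Dat k C B}

theorem S_swap (hP : P.IsPkg) (x y : C) : P.S x y = - P.S y x := by
  have h := hP.S_alt (x + y)
  simp only [map_add, LinearMap.add_apply] at h
  rw [hP.S_alt x, hP.S_alt y, zero_add, add_zero] at h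
  have h' : P.S y x + P.S x y = 0 := h
  exact eq_neg_of_add_eq_zero_right h'

theorem S_skew' (hP : P.IsPkg) (x y : C) (ξ η : Dual k C) : η (P.S x y ξ) = - ξ (P.S x y η) :=
  eq_neg_of_add_eq_zero_left (hP.S_skew x y ξ η)

theorem R_apply (x : C) (ξ : Dual k C) (u : B) : P.R x ξ u = ξ x • u + P.σ x ξ u := by
  unfold Dat.R
  rw [LinearMap.add_apply, LinearMap.smul_apply, LinearMap.id_apply]

theorem T_apply (x : C) (ξ : Dual k C) (y : C) :
    P.T x ξ y = (2 : k) • (ξ y • x) - ξ x • y - P.S x y ξ := by
  unfold Dat.T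
  rw [LinearMap.sub_apply, LinearMap.sub_apply, LinearMap.smul_apply, LinearMap.smul_apply,
    LinearMap.smulRight_apply, LinearMap.id_apply, LinearMap.flip_apply]

theorem sum_R_left (x : C) (ξ : Dual k C) (u : B) :
    ∑ i, e.coord i x • P.R (e i) ξ u = P.R x ξ u := by
  have h1 : ∀ i, e.coord i x • P.R (e i) ξ u =
      (e.coord i x * ξ (e i)) • u + P.σ (e.coord i x • e i) ξ u := by
    intro i
    rw [R_apply, smul_add, smul_smul, map_smul, LinearMap.smul_apply, LinearMap.smul_apply]
  rw [Finset.sum_congr rfl fun i _ => h1 i, Finset.sum_add_distrib, ← Finset.sum_smul,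
    sum_pair e, R_apply]
  congr 1
  calc ∑ i, P.σ (e.coord i x • e i) ξ u = P.σ (∑ i, e.coord i x • e i) ξ u := by
        rw [map_sum, LinearMap.sum_apply, LinearMap.sum_apply]
    _ = P.σ x ξ u := by rw [sum_coord_smul]

theorem sum_R_right (x : C) (ξ : Dual k C) (u : B) :
    ∑ i, ξ (e i) • P.R x (e.coord i) u = P.R x ξ u := by
  have h1 : ∀ i, ξ (e i) • P.R x (e.coord i) u =
      (e.coord i x * ξ (e i)) • u + P.σ x (ξ (e i) • e.coord i) u := by
    intro i
    rw [R_apply, smul_add, smul_smul, map_smul, LinearMap.smul_apply, mul_comm]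
  rw [Finset.sum_congr rfl fun i _ => h1 i, Finset.sum_add_distrib, ← Finset.sum_smul,
    sum_pair e, R_apply]
  congr 1
  calc ∑ i, P.σ x (ξ (e i) • e.coord i) u = P.σ x (∑ i, ξ (e i) • e.coord i) u := by
        rw [map_sum, LinearMap.sum_apply]
    _ = P.σ x ξ u := by rw [sum_coord_smul_dual]

/-- the adjoint of `R` -/
theorem adjR (hP : P.IsPkg) (x : C) (ξ : Dual k C) (u w : B) :
    P.ω (P.R x ξ u) w = 2 * ξ x * P.ω u w - P.ω u (P.R x ξ w) := by
  have h := hP.sp x ξ u w
  rw [R_apply, R_apply, map_add, map_smul, LinearMap.add_apply, LinearMap.smul_apply, map_add,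
    map_smul]
  simp only [smul_eq_mul]
  linear_combination h

theorem d1_apply (hP : P.IsPkg) (x : C) (ξ : Dual k C) (u : B) :
    ∑ i, P.R (e i) ξ (P.R x (e.coord i) u) = (12 : k) • P.R x ξ u := by
  have h := congrArg (fun f : B →ₗ[k] B => f u) (hP.d1 ι e x ξ)
  simpa only [LinearMap.sum_apply, LinearMap.comp_apply, LinearMap.smul_apply] using h

/-- the adjoint of (D1) -/
theorem d1_star (hP : P.IsPkg) (x : C) (ξ : Dual k C) (u : B) :
    ∑ i, P.R x (e.coord i) (P.R (e i) ξ u) = (20 * ξ x) • u - (8 : k) • P.R x ξ u := by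
  rw [← sub_eq_zero]
  refine hP.nondeg _ fun w => ?_
  rw [map_sub, map_sum, LinearMap.sub_apply, LinearMap.sum_apply, map_sub, map_smul, map_smul,
    LinearMap.sub_apply, LinearMap.smul_apply, LinearMap.smul_apply]
  have h1 : ∀ i, P.ω (P.R x (e.coord i) (P.R (e i) ξ u)) w =
      2 * P.ω (e.coord i x • P.R (e i) ξ u) w - 2 * P.ω u (ξ (e i) • P.R x (e.coord i) w) +
        P.ω u (P.R (e i) ξ (P.R x (e.coord i) w)) := by
    intro i
    rw [adjR hP, adjR hP (e i) ξ u (P.R x (e.coord i) w), map_smul, LinearMap.smul_apply, map_smul,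
      smul_eq_mul, smul_eq_mul]
    ring
  rw [Finset.sum_congr rfl fun i _ => h1 i, Finset.sum_add_distrib, Finset.sum_sub_distrib,
    ← Finset.mul_sum, ← Finset.mul_sum]
  have h2 : ∑ i, P.ω (e.coord i x • P.R (e i) ξ u) w = P.ω (P.R x ξ u) w := by
    rw [← sum_R_left e x ξ u, map_sum, LinearMap.sum_apply]
  have h3 : ∑ i, P.ω u (ξ (e i) • P.R x (e.coord i) w) = P.ω u (P.R x ξ w) := by
    rw [← map_sum, sum_R_right]
  have h4 : ∑ i, P.ω u (P.R (e i) ξ (P.R x (e.coord i) w)) = 12 * P.ω u (P.R x ξ w) := by
    rw [← map_sum, d1_apply e hP, map_smul, smul_eq_mul]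
  rw [h2, h3, h4, smul_eq_mul, smul_eq_mul]
  have h5 := adjR hP x ξ u w
  linear_combination 10 * h5

end CF1

open CF1

/-- CF1 -/
theorem tau_zero {P : Dat k C B} (hP : P.IsPkg) (ι : Type) [Fintype ι] (e : Basis ι k C) :
    ∑ i, P.σ (e i) (e.coord i) = 0 := by
  ext u
  rw [LinearMap.sum_apply, LinearMap.zero_apply]
  have h1 : ∑ j, ∑ i, P.R (e i) (e.coord j) (P.R (e j) (e.coord i) u) =
      ∑ j, (12 : k) • P.R (e j) (e.coord j) u :=
    Finset.sum_congr rfl fun j _ => d1_apply e hP _ _ _
  have h2 : ∑ j, ∑ i, P.R (e j) (e.coord i) (P.R (e i) (e.coord j) u) =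
      ∑ j, ((20 * e.coord j (e j)) • u - (8 : k) • P.R (e j) (e.coord j) u) :=
    Finset.sum_congr rfl fun j _ => d1_star e hP _ _ _
  rw [Finset.sum_comm, h1] at h2
  have h3 : ∑ j, P.R (e j) (e.coord j) u = (∑ j, e.coord j (e j)) • u + ∑ j, P.σ (e j) (e.coord j) u := by
    rw [Finset.sum_smul, ← Finset.sum_add_distrib]
    exact Finset.sum_congr rfl fun j _ => R_apply _ _ _
  have h4 : ∑ j, (20 * e.coord j (e j)) • u = (20 : k) • ((∑ j, e.coord j (e j)) • u) := by
    rw [Finset.sum_smul, Finset.smul_sum]
    exact Finset.sum_congr rfl fun j _ => mul_smul _ _ _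
  rw [Finset.sum_sub_distrib, ← Finset.smul_sum, ← Finset.smul_sum, h4, h3] at h2
  have h5 : (20 : k) • ∑ j, P.σ (e j) (e.coord j) u = 0 := by
    generalize (∑ j, e.coord j (e j)) • u = a at h2
    generalize ∑ j, P.σ (e j) (e.coord j) u = t at h2 ⊢
    have h6 : (20 : k) • t = (12 : k) • (a + t) - ((20 : k) • a - (8 : k) • (a + t)) := by module
    rw [h6, h2, sub_self]
  exact (smul_eq_zero.1 h5).resolve_left (by norm_num)

namespace CF1

variable {ι : Type} [Fintype ι] (e : Basis ι k C) {P : Dat k C B}

/-- elements of `sp` have trace zero -/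
theorem trace_sigma (hP : P.IsPkg) (x : C) (ξ : Dual k C) : LinearMap.trace k B (P.σ x ξ) = 0 := by
  have hinj : Function.Injective P.ω := by
    refine (injective_iff_map_eq_zero P.ω).2 fun u hu => hP.nondeg u fun w => ?_
    rw [hu, LinearMap.zero_apply]
  let E : B ≃ₗ[k] Dual k B := LinearMap.linearEquivOfInjective P.ω hinj Subspace.dual_finrank_eq.symm
  have hE : ∀ u, E u = P.ω u := fun u => rfl
  have h1 : E.conj (P.σ x ξ) + Module.Dual.transpose (R := k) (P.σ x ξ) = 0 := by
    ext φ w
    obtain ⟨u, rfl⟩ := E.surjective φ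
    rw [LinearMap.add_apply, LinearMap.add_apply, LinearEquiv.conj_apply, LinearMap.comp_apply,
      LinearMap.comp_apply, LinearEquiv.coe_coe,
      LinearEquiv.coe_coe, LinearEquiv.symm_apply_apply,
      Module.Dual.transpose_apply, hE, hE]
    exact hP.sp x ξ u w
  have h2 := LinearMap.trace_conj' (P.σ x ξ) E
  have h4 := congrArg (LinearMap.trace k (Dual k B)) h1
  rw [map_add, h2, LinearMap.trace_transpose', map_zero] at h4
  have h3 : (2 : k) * LinearMap.trace k B (P.σ x ξ) = 0 := by linear_combination h4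
  exact (mul_eq_zero.1 h3).resolve_left (by norm_num)

/-- the contraction of the trace form on `B` -/
theorem sum_trace_sigma (hP : P.IsPkg) (x : C) (η : Dual k C) :
    ∑ m, LinearMap.trace k B (P.σ x (e.coord m) ∘ₗ P.σ (e m) η) = 11 * (finrank k B : k) * η x := by
  have h1 : ∑ m, P.R x (e.coord m) ∘ₗ P.R (e m) η =
      (20 * η x) • LinearMap.id - (8 : k) • P.R x η := by
    ext u
    have := d1_star e hP x η u
    simpa only [LinearMap.sum_apply, LinearMap.comp_apply, LinearMap.sub_apply, LinearMap.smul_apply,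
      LinearMap.id_apply] using this
  have h2 := congrArg (LinearMap.trace k B) h1
  have h3 : LinearMap.trace k B (P.R x η) = η x * (finrank k B : k) := by
    unfold Dat.R
    rw [map_add, map_smul, LinearMap.trace_id, trace_sigma hP, add_zero, smul_eq_mul]
  have h4 : ∀ m, LinearMap.trace k B (P.R x (e.coord m) ∘ₗ P.R (e m) η) =
      (e.coord m x * η (e m)) * (finrank k B : k) +
        LinearMap.trace k B (P.σ x (e.coord m) ∘ₗ P.σ (e m) η) := by
    intro m
    have h5 : P.R x (e.coord m) ∘ₗ P.R (e m) η = (e.coord m x * η (e m)) • LinearMap.id +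
        e.coord m x • P.σ (e m) η + η (e m) • P.σ x (e.coord m) +
          P.σ x (e.coord m) ∘ₗ P.σ (e m) η := by
      ext u
      simp only [LinearMap.comp_apply, LinearMap.add_apply, LinearMap.smul_apply, LinearMap.id_apply,
        R_apply, map_add, map_smul]
      module
    rw [h5, map_add, map_add, map_add, map_smul, map_smul, map_smul, trace_sigma hP, trace_sigma hP,
      LinearMap.trace_id, smul_zero, smul_zero, add_zero, add_zero, smul_eq_mul]
  rw [map_sum, map_sub, map_smul, map_smul, LinearMap.trace_id, h3,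
    Finset.sum_congr rfl fun m _ => h4 m, Finset.sum_add_distrib, ← Finset.sum_mul, sum_pair e,
    smul_eq_mul, smul_eq_mul] at h2
  linear_combination h2

/-- the operator `Γ` -/
noncomputable def Gm (P : Dat k C B) : C →ₗ[k] C := ∑ i, (P.S.flip (e i)).flip (e.coord i)

theorem Gm_apply (x : C) : Gm e P x = ∑ i, P.S x (e i) (e.coord i) := by
  unfold Gm
  rw [LinearMap.sum_apply]
  rfl

theorem sum_S_left (hP : P.IsPkg) (y : C) (η : Dual k C) :
    ∑ m, e.coord m (P.S (e m) y η) = η (Gm e P y) := by
  rw [Gm_apply, map_sum]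
  refine Finset.sum_congr rfl fun m _ => ?_
  rw [S_skew' hP, S_swap hP (e m) y, LinearMap.neg_apply, map_neg, neg_neg]

theorem sum_S_right (hP : P.IsPkg) (x : C) (η : Dual k C) :
    ∑ m, e.coord m (P.S x (e m) η) = - η (Gm e P x) := by
  rw [Gm_apply, map_sum, ← Finset.sum_neg_distrib]
  exact Finset.sum_congr rfl fun m _ => S_skew' hP _ _ _ _

/-- the cubic contraction -/
theorem sum_SS (hP : P.IsPkg) (x : C) (η : Dual k C) :
    ∑ j, ∑ m, e.coord j (P.S x (P.S (e m) (e j) η) (e.coord m)) = 24 * η (Gm e P x) := by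
  have h1 : ∀ j m, e.coord j (P.S x (P.S (e m) (e j) η) (e.coord m)) =
      ∑ l, e.coord j (P.S x (e l) (e.coord m)) * η (P.S (e j) (e m) (e.coord l)) := by
    intro j m
    have h2 := sum_coord_smul e (P.S (e m) (e j) η)
    calc e.coord j (P.S x (P.S (e m) (e j) η) (e.coord m))
        = e.coord j (P.S x (∑ l, e.coord l (P.S (e m) (e j) η) • e l) (e.coord m)) := by rw [h2]
      _ = ∑ l, e.coord l (P.S (e m) (e j) η) * e.coord j (P.S x (e l) (e.coord m)) := by
          rw [map_sum, LinearMap.sum_apply, map_sum]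
          refine Finset.sum_congr rfl fun l _ => ?_
          rw [map_smul, LinearMap.smul_apply, map_smul, smul_eq_mul]
      _ = _ := by
          refine Finset.sum_congr rfl fun l _ => ?_
          rw [S_skew' hP (e m) (e j) η, S_swap hP (e m) (e j), LinearMap.neg_apply, map_neg, neg_neg,
            mul_comm]
  have h3 : ∀ m l, ∑ j, e.coord j (P.S x (e l) (e.coord m)) * η (P.S (e j) (e m) (e.coord l)) =
      η (P.S (P.S x (e l) (e.coord m)) (e m) (e.coord l)) := by
    intro m l
    have h2 := sum_coord_smul e (P.S x (e l) (e.coord m))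
    conv_rhs => rw [← h2]
    rw [map_sum, LinearMap.sum_apply, LinearMap.sum_apply, map_sum]
    refine Finset.sum_congr rfl fun j _ => ?_
    rw [map_smul, LinearMap.smul_apply, LinearMap.smul_apply, map_smul, smul_eq_mul]
  have h4 : ∀ l, ∑ m, η (P.S (P.S x (e l) (e.coord m)) (e m) (e.coord l)) =
      24 * η (P.S x (e l) (e.coord l)) := by
    intro l
    have h5 := congrArg (fun f : Dual k C →ₗ[k] C => η (f (e.coord l))) (hP.d2 ι e x (e l))
    simp only [LinearMap.sum_apply, map_sum, LinearMap.smul_apply, map_smul, smul_eq_mul] at h5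
    exact h5
  calc ∑ j, ∑ m, e.coord j (P.S x (P.S (e m) (e j) η) (e.coord m))
      = ∑ j, ∑ m, ∑ l, e.coord j (P.S x (e l) (e.coord m)) * η (P.S (e j) (e m) (e.coord l)) :=
        Finset.sum_congr rfl fun j _ => Finset.sum_congr rfl fun m _ => h1 j m
    _ = ∑ m, ∑ l, ∑ j, e.coord j (P.S x (e l) (e.coord m)) * η (P.S (e j) (e m) (e.coord l)) := by
        rw [Finset.sum_comm]
        refine Finset.sum_congr rfl fun m _ => ?_
        rw [Finset.sum_comm]
    _ = ∑ m, ∑ l, η (P.S (P.S x (e l) (e.coord m)) (e m) (e.coord l)) :=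
        Finset.sum_congr rfl fun m _ => Finset.sum_congr rfl fun l _ => h3 m l
    _ = ∑ l, 24 * η (P.S x (e l) (e.coord l)) := by
        rw [Finset.sum_comm]
        exact Finset.sum_congr rfl fun l _ => h4 l
    _ = _ := by rw [← Finset.mul_sum, Gm_apply, map_sum]

/-- the sum of `T T` -/
theorem sum_TT (hP : P.IsPkg) (x z : C) (η : Dual k C) :
    ∑ m, P.T x (e.coord m) (P.T (e m) η z) =
      ((4 * (finrank k C : k) - 2) * η z - 2 * η (Gm e P z) - 2 * η z) • x + η x • z +
        (2 : k) • P.S x z η - (2 * η z) • Gm e P x +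
          ∑ m, P.S x (P.S (e m) z η) (e.coord m) := by
  have h1 : ∀ m, P.T x (e.coord m) (P.T (e m) η z) =
      (4 * η z * e.coord m (e m)) • x - (2 * (e.coord m z * η (e m))) • x -
        (2 * e.coord m (P.S (e m) z η)) • x - (2 * η z) • (e.coord m x • e m) +
        (e.coord m x * η (e m)) • z + e.coord m x • P.S (e m) z η -
        (2 * η z) • P.S x (e m) (e.coord m) + η (e m) • P.S x z (e.coord m) +
        P.S x (P.S (e m) z η) (e.coord m) := by
    intro m
    rw [T_apply, T_apply]
    simp only [map_sub, map_smul, LinearMap.sub_apply, LinearMap.smul_apply, smul_eq_mul]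
    module
  rw [Finset.sum_congr rfl fun m _ => h1 m]
  simp only [Finset.sum_add_distrib, Finset.sum_sub_distrib]
  have s1 : ∑ m, (4 * η z * e.coord m (e m)) • x = (4 * η z * (finrank k C : k)) • x := by
    rw [← Finset.sum_smul, ← Finset.mul_sum, sum_one]
  have s2 : ∑ m, (2 * (e.coord m z * η (e m))) • x = (2 * η z) • x := by
    rw [← Finset.sum_smul, ← Finset.mul_sum, sum_pair]
  have s3 : ∑ m, (2 * e.coord m (P.S (e m) z η)) • x = (2 * η (Gm e P z)) • x := by
    rw [← Finset.sum_smul, ← Finset.mul_sum, sum_S_left e hP]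
  have s4 : ∑ m, (2 * η z) • (e.coord m x • e m) = (2 * η z) • x := by
    rw [← Finset.smul_sum, sum_coord_smul]
  have s5 : ∑ m, (e.coord m x * η (e m)) • z = η x • z := by
    rw [← Finset.sum_smul, sum_pair]
  have s6 : ∑ m, e.coord m x • P.S (e m) z η = P.S x z η := by
    calc ∑ m, e.coord m x • P.S (e m) z η = P.S (∑ m, e.coord m x • e m) z η := by
          rw [map_sum, LinearMap.sum_apply, LinearMap.sum_apply]
          refine Finset.sum_congr rfl fun m _ => ?_
          rw [map_smul, LinearMap.smul_apply, LinearMap.smul_apply]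
      _ = _ := by rw [sum_coord_smul]
  have s7 : ∑ m, (2 * η z) • P.S x (e m) (e.coord m) = (2 * η z) • Gm e P x := by
    rw [← Finset.smul_sum, Gm_apply]
  have s8 : ∑ m, η (e m) • P.S x z (e.coord m) = P.S x z η := by
    calc ∑ m, η (e m) • P.S x z (e.coord m) = P.S x z (∑ m, η (e m) • e.coord m) := by
          rw [map_sum]
          exact Finset.sum_congr rfl fun m _ => (map_smul _ _ _).symm
      _ = _ := by rw [sum_coord_smul_dual]
  rw [s1, s2, s3, s4, s5, s6, s7, s8]
  module

theorem sum_trace_T (hP : P.IsPkg) (x : C) (η : Dual k C) :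
    ∑ m, LinearMap.trace k C (P.T x (e.coord m) ∘ₗ P.T (e m) η) =
      (5 * (finrank k C : k) - 4) * η x + 18 * η (Gm e P x) := by
  have h1 : ∑ m, LinearMap.trace k C (P.T x (e.coord m) ∘ₗ P.T (e m) η) =
      ∑ j, e.coord j (∑ m, P.T x (e.coord m) (P.T (e m) η (e j))) := by
    rw [Finset.sum_congr rfl fun m _ => trace_eq e (P.T x (e.coord m) ∘ₗ P.T (e m) η),
      Finset.sum_comm]
    refine Finset.sum_congr rfl fun j _ => ?_
    rw [map_sum]
    rfl
  have h2 : ∀ j, e.coord j (∑ m, P.T x (e.coord m) (P.T (e m) η (e j))) =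
      (4 * (finrank k C : k) - 4) * (e.coord j x * η (e j)) -
        2 * (e.coord j x * η (Gm e P (e j))) + η x * e.coord j (e j) +
        2 * e.coord j (P.S x (e j) η) - 2 * (e.coord j (Gm e P x) * η (e j)) +
          ∑ m, e.coord j (P.S x (P.S (e m) (e j) η) (e.coord m)) := by
    intro j
    rw [sum_TT e hP, map_add, map_sub, map_add, map_add, map_smul, map_smul, map_smul, map_smul,
      map_sum]
    simp only [smul_eq_mul]
    ring
  have h3 : ∑ j, e.coord j x * η (Gm e P (e j)) = η (Gm e P x) := by
    have := sum_pair e x (η ∘ₗ Gm e P)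
    simpa only [LinearMap.comp_apply] using this
  rw [h1, Finset.sum_congr rfl fun j _ => h2 j]
  simp only [Finset.sum_add_distrib, Finset.sum_sub_distrib, ← Finset.mul_sum]
  rw [sum_pair e, sum_pair e, h3, sum_one, sum_S_right e hP, sum_SS e hP]
  ring

theorem Gm_eq (hP : P.IsPkg) (x : C) : Gm e P x = ((finrank k C : k) + 10) • x := by
  refine ext_dual (k := k) fun η => ?_
  rw [map_smul, smul_eq_mul]
  have h1 := fun m => hP.d0 x (e m) (e.coord m) η
  have h2 : ∑ m, (LinearMap.trace k C (P.T x (e.coord m) ∘ₗ P.T (e m) η) -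
      2⁻¹ * LinearMap.trace k B (P.σ x (e.coord m) ∘ₗ P.σ (e m) η)) =
      ∑ m, 12 * η (P.T x (e.coord m) (e m)) := Finset.sum_congr rfl fun m _ => h1 m
  have h3 : ∑ m, P.T x (e.coord m) (e m) = (2 * (finrank k C : k) - 1) • x - Gm e P x := by
    have h4 : ∀ m, P.T x (e.coord m) (e m) = (2 * e.coord m (e m)) • x - e.coord m x • e m -
        P.S x (e m) (e.coord m) := by
      intro m
      rw [T_apply, smul_smul]
    rw [Finset.sum_congr rfl fun m _ => h4 m]
    simp only [Finset.sum_sub_distrib, ← Finset.sum_smul, ← Finset.mul_sum]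
    rw [sum_one, sum_coord_smul, Gm_apply]
    module
  have h5 : (finrank k B : k) = 56 + 2 * (finrank k C : k) := by
    rw [hP.dim]; push_cast; ring
  rw [Finset.sum_sub_distrib, ← Finset.mul_sum, ← Finset.mul_sum, sum_trace_T e hP,
    sum_trace_sigma e hP, ← map_sum, h3, map_sub, map_smul, smul_eq_mul, h5] at h2
  have h6 : (30 : k) * (η (Gm e P x) - ((finrank k C : k) + 10) * η x) = 0 := by
    linear_combination h2
  have h7 := (mul_eq_zero.1 h6).resolve_left (by norm_num)
  exact sub_eq_zero.1 h7

end CF1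

/-- CF1 -/
theorem Gam {P : Dat k C B} (hP : P.IsPkg) (ι : Type) [Fintype ι] (e : Basis ι k C) (x : C) :
    ∑ i, P.S x (e i) (e.coord i) = ((finrank k C : k) + 10) • x := by
  rw [← Gm_apply, Gm_eq e hP]

/-- CF1 -/
theorem sum_T {P : Dat k C B} (hP : P.IsPkg) (ι : Type) [Fintype ι] (e : Basis ι k C) :
    ∑ i, P.T (e i) (e.coord i) = (12 : k) • LinearMap.id := by
  ext y
  rw [LinearMap.sum_apply, LinearMap.smul_apply, LinearMap.id_apply]
  have h4 : ∀ m, P.T (e m) (e.coord m) y = (2 : k) • (e.coord m y • e m) - e.coord m (e m) • y +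
      P.S y (e m) (e.coord m) := by
    intro m
    rw [T_apply, S_swap hP (e m) y, LinearMap.neg_apply, sub_neg_eq_add]
  rw [Finset.sum_congr rfl fun m _ => h4 m]
  simp only [Finset.sum_add_distrib, Finset.sum_sub_distrib, ← Finset.sum_smul, ← Finset.smul_sum]
  rw [sum_one, sum_coord_smul, Gam hP]
  module

/-- CF1 -/
theorem two_or_twelve {P : Dat k C B} (hP : P.IsPkg) {ε : C} (hne : ε ≠ 0)
    (e1 : ∀ x, P.S ε x = 0 → ∃ c : k, x = c • ε) (e2 : ∀ x y, ∃ z, P.S x y = P.S ε z) :
    finrank k C = 2 ∨ finrank k C = 12 := by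
  classical
  let e := Module.finBasis k C
  -- the operator `M ↦ ∑ S (M ξ_m) x_m`
  let Q : Fin (finrank k C) → C →ₗ[k] (Dual k C →ₗ[k] C) := fun m => P.S.flip (e m)
  let ev : Fin (finrank k C) → (Dual k C →ₗ[k] C) →ₗ[k] C := fun m =>
    LinearMap.applyₗ (e.coord m)
  let Φ : (Dual k C →ₗ[k] C) →ₗ[k] (Dual k C →ₗ[k] C) := ∑ m, Q m ∘ₗ ev m
  have hΦ : ∀ M, Φ M = ∑ m, P.S (M (e.coord m)) (e m) := by
    intro M
    show (∑ m, Q m ∘ₗ ev m) M = _
    rw [LinearMap.sum_apply]
    rfl
  let V : Submodule k (Dual k C →ₗ[k] C) := LinearMap.range (P.S ε)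
  have hV : ∀ M, Φ M ∈ V := by
    intro M
    rw [hΦ]
    refine Submodule.sum_mem _ fun m _ => ?_
    obtain ⟨z, hz⟩ := e2 (M (e.coord m)) (e m)
    exact ⟨z, hz.symm⟩
  have hV2 : ∀ M ∈ V, Φ M = (24 : k) • M := by
    rintro M ⟨w, rfl⟩
    rw [hΦ]
    exact hP.d2 _ e ε w
  have hproj : LinearMap.IsProj V ((24 : k)⁻¹ • Φ) := by
    refine ⟨fun M => V.smul_mem _ (hV M), fun M hM => ?_⟩
    rw [LinearMap.smul_apply, hV2 M hM, smul_smul, inv_mul_cancel₀ (by norm_num), one_smul]
  have htr := hproj.trace
  have htr2 : LinearMap.trace k _ Φ = (finrank k C : k) * ((finrank k C : k) + 10) := by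
    show LinearMap.trace k _ (∑ m, Q m ∘ₗ ev m) = _
    rw [map_sum]
    have h1 : ∀ m, LinearMap.trace k _ (Q m ∘ₗ ev m) = LinearMap.trace k _ (ev m ∘ₗ Q m) :=
      fun m => LinearMap.trace_comp_comm' _ _
    rw [Finset.sum_congr rfl fun m _ => h1 m, ← map_sum]
    have h2 : ∑ m, ev m ∘ₗ Q m = ((finrank k C : k) + 10) • LinearMap.id := by
      ext x
      rw [LinearMap.sum_apply, LinearMap.smul_apply, LinearMap.id_apply]
      exact Gam hP _ e x
    rw [h2, map_smul, LinearMap.trace_id, smul_eq_mul, mul_comm]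
  have hrank : finrank k V + 1 = finrank k C := by
    have h1 := LinearMap.finrank_range_add_finrank_ker (P.S ε)
    have h2 : LinearMap.ker (P.S ε) = Submodule.span k {ε} := by
      ext x
      rw [LinearMap.mem_ker, Submodule.mem_span_singleton]
      constructor
      · intro h
        obtain ⟨c, hc⟩ := e1 x h
        exact ⟨c, hc.symm⟩
      · rintro ⟨c, rfl⟩
        rw [map_smul, hP.S_alt, smul_zero]
    rw [h2, finrank_span_singleton hne] at h1
    exact h1
  rw [map_smul, htr2, smul_eq_mul] at htr
  have h3 : (finrank k C : k) = (finrank k V : k) + 1 := by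
    rw [← hrank]; push_cast; ring
  have h4 : ((finrank k C : k) - 2) * ((finrank k C : k) - 12) = 0 := by
    have h5 : (finrank k C : k) * ((finrank k C : k) + 10) = 24 * (finrank k V : k) := by
      rw [← htr, ← mul_assoc, mul_inv_cancel₀ (by norm_num), one_mul]
    linear_combination h5 - 24 * h3
  rcases mul_eq_zero.1 h4 with h | h
  · left
    have : (finrank k C : k) = ((2 : ℕ) : k) := by push_cast; linear_combination h
    exact_mod_cast this
  · right
    have : (finrank k C : k) = ((12 : ℕ) : k) := by push_cast; linear_combination h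
    exact_mod_cast this

end

end LicciCF

end

section

/-!
# CF3a: if `ε` is in the image of `∂`, then `δ` is injective; module structure of a derivation
-/

set_option autoImplicit false

open Module

namespace LicciCF

variable {k C B : Type*} [Field k] [AddCommGroup C] [Module k C] [AddCommGroup B]
  [Module k B] [FiniteDimensional k C] [FiniteDimensional k B]

/-- `S(x,y) = - S(y,x)` -/
theorem S_anti {P : Dat k C B} (hP : P.IsPkg) (x y : C) : P.S x y = -P.S y x := by
  have h := hP.S_alt (x + y)
  simp only [map_add, LinearMap.add_apply, hP.S_alt, zero_add, add_zero] at h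
  exact eq_neg_of_add_eq_zero_left (by rw [add_comm]; exact h)

/-- `dq` through `R` -/
theorem dq_R {P : Dat k C B} (hP : P.IsPkg) {δ : Dual k C →ₗ[k] B} {del : B →ₗ[k] C} (hd : P.IsDer δ del)
    (x : C) (u : B) (ξ η : Dual k C) :
    η (P.S x (del u) ξ) = ξ (del (P.R x η u)) - η (del (P.R x ξ u)) := by
  have h1 := hP.sp x ξ (δ η) u
  have h2 := hP.sp x η (δ ξ) u
  rw [hd.dq, hd.adj, hd.adj]
  simp only [Dat.R, LinearMap.add_apply, LinearMap.smul_apply, LinearMap.id_apply, map_add, map_smul,
    smul_eq_mul, hd.adj]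
  linear_combination h1 - h2

/-- (3'') -/
theorem S_del {P : Dat k C B} (hP : P.IsPkg) {δ : Dual k C →ₗ[k] B} {del : B →ₗ[k] C} (hd : P.IsDer δ del)
    {x y : C} {u a : B} (h : ∀ ξ, P.R x ξ u = P.R y ξ a) : P.S x (del u) = P.S y (del a) := by
  ext ξ
  refine (Module.forall_dual_apply_eq_zero_iff k _).1 (fun η => ?_) |> sub_eq_zero.1
  rw [map_sub, dq_R hP hd, dq_R hP hd, h, h, sub_self]

/-- if `ε` is in the image of `∂`, then `δ` is injective -/
theorem inj_of_mem {P : Dat k C B} (hP : P.IsPkg) {ε : C} (hε : P.IsEps ε)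
    {δ : Dual k C →ₗ[k] B} {del : B →ₗ[k] C} (hd : P.IsDer δ del) (hmem : ε ∈ LinearMap.range del) :
    Function.Injective δ := by
  obtain ⟨u, hu⟩ := hmem
  rw [injective_iff_map_eq_zero]
  intro f hf
  have hI : ∀ w, f (del w) = 0 := fun w => by rw [hd.adj, hf, map_zero, LinearMap.zero_apply]
  ext x
  obtain ⟨a, ha⟩ := hε.e3 x u
  have h1 := S_del hP hd ha
  rw [hu, S_anti hP x ε] at h1
  have h2 : P.S ε (x + del a) = 0 := by rw [map_add, ← h1]; abel
  obtain ⟨c, hc⟩ := hε.e1 _ h2
  have h3 := congrArg f hc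
  rw [map_add, hI, add_zero, map_smul, ← hu, hI, smul_zero] at h3
  rw [h3, LinearMap.zero_apply]

end LicciCF

end

section

/-! # CF4, part a: linear algebra preliminaries -/

set_option autoImplicit false

open Module

namespace LicciCF

section Prelim

variable {k : Type*} [Field k] {C : Type*} [AddCommGroup C] [Module k C] {ι : Type*} [Fintype ι]

theorem tr_eq (e : Basis ι k C) (A : C →ₗ[k] C) :
    LinearMap.trace k C A = ∑ i, e.coord i (A (e i)) := by
  classical
  rw [LinearMap.trace_eq_matrix_trace k e, Matrix.trace]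
  simp [LinearMap.toMatrix_apply, Matrix.diag]

theorem sum_coord (e : Basis ι k C) {M : Type*} [AddCommGroup M] [Module k M] (F : C →ₗ[k] M)
    (x : C) : ∑ i, e.coord i x • F (e i) = F x := by
  simp_rw [← map_smul]
  rw [← map_sum]
  congr 1
  exact e.sum_repr x

theorem sum_dual (e : Basis ι k C) {M : Type*} [AddCommGroup M] [Module k M]
    (G : Dual k C →ₗ[k] M) (ξ : Dual k C) : ∑ i, ξ (e i) • G (e.coord i) = G ξ := by
  simp_rw [← map_smul]
  rw [← map_sum, Basis.sum_dual_apply_smul_coord]

/-- block operator -/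
def Blk {B : Type*} [AddCommGroup B] [Module k B] (Rr : ι → ι → (B →ₗ[k] B)) :
    (ι → B) →ₗ[k] (ι → B) :=
  LinearMap.pi (fun j => ∑ i, Rr i j ∘ₗ LinearMap.proj i)

theorem Blk_apply {B : Type*} [AddCommGroup B] [Module k B] (Rr : ι → ι → (B →ₗ[k] B))
    (u : ι → B) (j : ι) : Blk Rr u j = ∑ i, Rr i j (u i) := by
  simp [Blk]

theorem trace_Blk {B : Type*} [AddCommGroup B] [Module k B] [FiniteDimensional k B]
    (Rr : ι → ι → (B →ₗ[k] B)) :
    LinearMap.trace k (ι → B) (Blk Rr) = ∑ i, LinearMap.trace k B (Rr i i) := by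
  classical
  have h : Blk Rr = ∑ j, ∑ i, (LinearMap.single k (fun _ => B) j) ∘ₗ
      ((Rr i j) ∘ₗ (LinearMap.proj i : (ι → B) →ₗ[k] B)) := by
    apply LinearMap.ext
    intro u
    funext l
    rw [Blk_apply]
    simp only [LinearMap.sum_apply, LinearMap.comp_apply, Finset.sum_apply, LinearMap.proj_apply,
      LinearMap.single_apply]
    symm
    rw [Finset.sum_eq_single l]
    · refine Finset.sum_congr rfl fun i _ => ?_
      rw [Pi.single_eq_same]
    · intro j _ hj
      refine Finset.sum_eq_zero fun i _ => ?_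
      rw [Pi.single_eq_of_ne (Ne.symm hj)]
    · intro hl
      exact absurd (Finset.mem_univ l) hl
  rw [h, map_sum]
  refine Finset.sum_congr rfl fun j _ => ?_
  rw [map_sum, Finset.sum_eq_single j]
  · rw [LinearMap.trace_comp_comm', LinearMap.comp_assoc]
    congr 1
    apply LinearMap.ext
    intro u
    simp
  · intro i _ hi
    rw [LinearMap.trace_comp_comm', LinearMap.comp_assoc]
    have : (LinearMap.proj i : (ι → B) →ₗ[k] B) ∘ₗ (LinearMap.single k (fun _ => B) j) = 0 := by
      apply LinearMap.ext
      intro u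
      simp [Pi.single_eq_of_ne hi]
    rw [this, LinearMap.comp_zero, map_zero]
  · intro hl
    exact absurd (Finset.mem_univ j) hl

theorem idem_rank [CharZero k] {V : Type*} [AddCommGroup V] [Module k V] [FiniteDimensional k V]
    (E : V →ₗ[k] V) (hE : ∀ u, E (E u) = (12 : k) • E u) (r : ℕ)
    (htr : LinearMap.trace k V E = 12 * (r : k)) : finrank k (LinearMap.range E) = r := by
  have h12 : (12 : k) ≠ 0 := by norm_num
  have hp : LinearMap.IsProj (LinearMap.range E) ((12 : k)⁻¹ • E) := by
    constructor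
    · intro x
      rw [LinearMap.smul_apply]
      exact Submodule.smul_mem _ _ (LinearMap.mem_range_self E x)
    · rintro x ⟨y, rfl⟩
      rw [LinearMap.smul_apply, hE, smul_smul, inv_mul_cancel₀ h12, one_smul]
  have h1 := hp.trace
  rw [map_smul, htr, smul_eq_mul, ← mul_assoc, inv_mul_cancel₀ h12, one_mul] at h1
  exact_mod_cast h1.symm

/-- A surjection onto a space of the same dimension is injective. -/
theorem inj_of_onto {V W : Type*} [AddCommGroup V] [Module k V] [FiniteDimensional k V]
    [AddCommGroup W] [Module k W] [FiniteDimensional k W] (f : V →ₗ[k] W)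
    (h : finrank k (LinearMap.range f) = finrank k V) : Function.Injective f := by
  rw [← LinearMap.ker_eq_bot]
  have h1 := LinearMap.finrank_range_add_finrank_ker f
  have h2 : finrank k (LinearMap.ker f) = 0 := by omega
  exact Submodule.finrank_eq_zero.1 h2

end Prelim

end LicciCF

end

section

/-! # CF4, part b: the abstract core (steps 3-5) -/

set_option autoImplicit false

open Module

namespace LicciCF

/-- The data of steps 3-5. -/
structure Core4 (k C B : Type*) [Field k] [AddCommGroup C] [Module k C] [AddCommGroup B] [Module k B]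
    {ι : Type*} [Fintype ι] (e : Basis ι k C) where
  a : C →ₗ[k] End k B
  a' : C →ₗ[k] End k B
  b : Dual k C →ₗ[k] End k B
  δ : Dual k C →ₗ[k] B
  v : B
  ε : C
  θ : Dual k C
  ad : C →ₗ[k] C →ₗ[k] C
  J : C →ₗ[k] C
  h1 : ∀ (x : C) (ξ : Dual k C) (u : B), a' x (b ξ u) + b ξ (a x u) = (2 * ξ x) • u + (2 * ξ ε) • a' x u
  aε : a ε = 1
  a'ε : a' ε = -1
  h2 : ∀ u : B, ∑ i, b (e.coord i) (a (e i) u) = (12 : k) • u
  hδ : ∀ η, δ η = b η v
  inj : Function.Injective δ
  θε : θ ε = 1
  δθ : δ θ = v
  ad_self : ∀ x, ad x x = 0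
  θad : ∀ x y, θ (ad x y) = 0
  adε : ad ε = 0
  tr_ad : ∀ x, LinearMap.trace k C (ad x) = 0
  hA : ∀ x f, f ε = 0 → a' x (δ f) = f x • v - θ x • δ f - δ (f ∘ₗ ad x)
  Jε : J ε = 0
  θJ : ∀ x, θ (J x) = 0
  hD : ∀ η, b θ (δ η) = δ η + δ (η ∘ₗ J)

namespace Core4

variable {k C B : Type*} [Field k] [AddCommGroup C] [Module k C] [AddCommGroup B]
  [Module k B] {ι : Type*} [Fintype ι] {e : Basis ι k C} (Q : Core4 k C B e)

theorem ad_anti (x y : C) : Q.ad x y = -Q.ad y x := by
  have h := Q.ad_self (x + y)
  simp only [map_add, LinearMap.add_apply, Q.ad_self, zero_add, add_zero] at h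
  exact eq_neg_of_add_eq_zero_right h

theorem ad_ε (x : C) : Q.ad x Q.ε = 0 := by
  rw [Q.ad_anti, Q.adε, LinearMap.zero_apply, neg_zero]

theorem bθv : Q.b Q.θ Q.v = Q.v := by
  rw [← Q.hδ, Q.δθ]

theorem hA_all (x : C) (ξ : Dual k C) : Q.a' x (Q.δ ξ) =
    ξ Q.ε • Q.a' x Q.v + ξ x • Q.v - Q.θ x • Q.δ ξ - Q.δ (ξ ∘ₗ Q.ad x) := by
  set f : Dual k C := ξ - ξ Q.ε • Q.θ with hf
  have hfε : f Q.ε = 0 := by
    rw [hf, LinearMap.sub_apply, LinearMap.smul_apply, Q.θε, smul_eq_mul, mul_one, sub_self]
  have h := Q.hA x f hfε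
  have h3 : f ∘ₗ Q.ad x = ξ ∘ₗ Q.ad x := by
    apply LinearMap.ext
    intro y
    simp only [hf, LinearMap.comp_apply, LinearMap.sub_apply, LinearMap.smul_apply, Q.θad,
      smul_zero, sub_zero]
  have h4 : Q.δ f = Q.δ ξ - ξ Q.ε • Q.v := by
    rw [hf, map_sub, map_smul, Q.δθ]
  have h5 : f x = ξ x - ξ Q.ε * Q.θ x := by
    rw [hf, LinearMap.sub_apply, LinearMap.smul_apply, smul_eq_mul]
  rw [h3, h4, h5, map_sub, map_smul] at h
  have h6 : Q.a' x (Q.δ ξ) = ξ Q.ε • Q.a' x Q.v + ((ξ x - ξ Q.ε * Q.θ x) • Q.v -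
      Q.θ x • (Q.δ ξ - ξ Q.ε • Q.v) - Q.δ (ξ ∘ₗ Q.ad x)) := by
    rw [← h]
    abel
  rw [h6]
  module

theorem hC {w : C} (hw : Q.θ w = 0) (u : B) :
    Q.b Q.θ (Q.a w u) = (2 : k) • Q.a' w u - Q.a' w (Q.b Q.θ u) := by
  have h := Q.h1 w Q.θ u
  rw [hw, Q.θε, mul_zero, zero_smul, zero_add, mul_one] at h
  rw [← h]
  abel

theorem a'v {w : C} (hw : Q.θ w = 0) : Q.b Q.θ (Q.a w Q.v) = Q.a' w Q.v := by
  rw [Q.hC hw, Q.bθv]
  module

theorem hB {w : C} (hw : Q.θ w = 0) (ξ : Dual k C) : Q.b ξ (Q.a w Q.v) =
    ξ Q.ε • Q.a' w Q.v + ξ w • Q.v + Q.δ (ξ ∘ₗ Q.ad w) := by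
  have h := Q.h1 w ξ Q.v
  rw [← Q.hδ, Q.hA_all, hw, zero_smul, sub_zero] at h
  have h2 : Q.b ξ (Q.a w Q.v) = (2 * ξ w) • Q.v + (2 * ξ Q.ε) • Q.a' w Q.v -
      (ξ Q.ε • Q.a' w Q.v + ξ w • Q.v - Q.δ (ξ ∘ₗ Q.ad w)) := by
    rw [← h]
    abel
  rw [h2]
  module

/-- the Killing form -/
noncomputable def K : C →ₗ[k] C →ₗ[k] k :=
  LinearMap.mk₂ k (fun w z => LinearMap.trace k C (Q.ad w ∘ₗ Q.ad z))
    (fun w w' z => by rw [map_add, LinearMap.add_comp, map_add])
    (fun c w z => by rw [map_smul, LinearMap.smul_comp, map_smul])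
    (fun w z z' => by rw [map_add, LinearMap.comp_add, map_add])
    (fun c w z => by rw [map_smul, LinearMap.comp_smul, map_smul])

theorem K_apply (w z : C) : Q.K w z = LinearMap.trace k C (Q.ad w ∘ₗ Q.ad z) := rfl

theorem K_symm (w z : C) : Q.K w z = Q.K z w := by
  rw [K_apply, K_apply]
  exact LinearMap.trace_mul_comm k (Q.ad w) (Q.ad z)

theorem K_ε : Q.K Q.ε = 0 := by
  apply LinearMap.ext
  intro z
  rw [K_apply, Q.adε, LinearMap.zero_comp, map_zero, LinearMap.zero_apply]

theorem Kε (w : C) : Q.K w Q.ε = 0 := by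
  rw [K_symm, K_ε, LinearMap.zero_apply]

theorem h4 (hcard : Fintype.card ι = 12) {w : C} (hw : Q.θ w = 0) :
    (10 : k) • Q.a w Q.v = Q.δ (Q.K w) := by
  set y := Q.a w Q.v with hy
  have e1 : ∀ i, Q.b (e.coord i) (Q.a (e i) y) = (2 : k) • y + (2 : k) • (e.coord i Q.ε • Q.a' (e i) y) -
      Q.a' (e i) (Q.b (e.coord i) y) := by
    intro i
    have h := Q.h1 (e i) (e.coord i) y
    have hii : e.coord i (e i) = 1 := by simp
    rw [hii, mul_one] at h
    rw [smul_smul, ← h]
    abel
  have e2 : ∑ i, Q.a' (e i) (Q.b (e.coord i) y) = Q.δ (Q.K w) := by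
    have e3 : ∀ i, Q.a' (e i) (Q.b (e.coord i) y) = e.coord i Q.ε • Q.a' (e i) (Q.a' w Q.v) +
        e.coord i w • Q.a' (e i) Q.v + (e.coord i (Q.ad w (e i)) • Q.v -
          Q.θ (e i) • Q.δ ((e.coord i) ∘ₗ Q.ad w) -
          Q.δ ((e.coord i) ∘ₗ Q.ad w ∘ₗ Q.ad (e i))) := by
      intro i
      rw [hy, Q.hB hw, map_add, map_add, map_smul, map_smul]
      congr 1
      rw [Q.hA_all]
      have h0 : ((e.coord i) ∘ₗ Q.ad w) Q.ε = 0 := by
        rw [LinearMap.comp_apply, Q.ad_ε, map_zero]
      rw [h0, zero_smul, zero_add, LinearMap.comp_apply, LinearMap.comp_assoc]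
    rw [Finset.sum_congr rfl (fun i _ => e3 i)]
    simp only [Finset.sum_add_distrib, Finset.sum_sub_distrib]
    have f1 : ∑ i, e.coord i Q.ε • Q.a' (e i) (Q.a' w Q.v) = -(Q.a' w Q.v) := by
      have := sum_coord e (Q.a'.flip (Q.a' w Q.v)) Q.ε
      simp only [LinearMap.flip_apply] at this
      rw [this, Q.a'ε]
      rfl
    have f2 : ∑ i, e.coord i w • Q.a' (e i) Q.v = Q.a' w Q.v := by
      have := sum_coord e (Q.a'.flip Q.v) w
      simpa only [LinearMap.flip_apply] using this
    have f3 : ∑ i, e.coord i (Q.ad w (e i)) • Q.v = 0 := by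
      rw [← Finset.sum_smul, ← tr_eq, Q.tr_ad, zero_smul]
    have f4 : ∑ i, Q.θ (e i) • Q.δ ((e.coord i) ∘ₗ Q.ad w) = 0 := by
      have := sum_dual e (Q.δ ∘ₗ (LinearMap.lcomp k k (Q.ad w))) Q.θ
      simp only [LinearMap.comp_apply, LinearMap.lcomp_apply'] at this
      rw [this]
      have h0 : Q.θ ∘ₗ Q.ad w = 0 := by
        apply LinearMap.ext
        intro z
        simp [Q.θad]
      rw [h0, map_zero]
    have f5 : ∑ i, Q.δ ((e.coord i) ∘ₗ Q.ad w ∘ₗ Q.ad (e i)) = -Q.δ (Q.K w) := by
      rw [← map_sum, ← map_neg]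
      congr 1
      apply LinearMap.ext
      intro z
      rw [LinearMap.sum_apply, LinearMap.neg_apply, K_apply, tr_eq e, ← Finset.sum_neg_distrib]
      refine Finset.sum_congr rfl fun i _ => ?_
      simp only [LinearMap.comp_apply]
      rw [Q.ad_anti (e i) z, map_neg, map_neg]
    rw [f1, f2, f3, f4, f5]
    abel
  have f6 : ∑ i, e.coord i Q.ε • Q.a' (e i) y = -y := by
    have := sum_coord e (Q.a'.flip y) Q.ε
    simp only [LinearMap.flip_apply] at this
    rw [this, Q.a'ε]
    rfl
  have f7 : ∑ i, (2 : k) • (e.coord i Q.ε • Q.a' (e i) y) = (2 : k) • -y := by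
    rw [← Finset.smul_sum, f6]
  have e4 := Q.h2 y
  rw [Finset.sum_congr rfl (fun i _ => e1 i), Finset.sum_sub_distrib, Finset.sum_add_distrib, e2,
    f7, Finset.sum_const, Finset.card_univ, hcard] at e4
  have e5 : Q.δ (Q.K w) = (12 : ℕ) • ((2 : k) • y) + (2 : k) • -y - (12 : k) • y := by
    rw [← e4]
    abel
  rw [e5]
  module

theorem h5 (hcard : Fintype.card ι = 12) {w : C} (hw : Q.θ w = 0) {f : Dual k C}
    (hf : f Q.ε = 0) :
    Q.b f (Q.δ (Q.K w)) = (10 : k) • (f w • Q.v + Q.δ (f ∘ₗ Q.ad w)) := by
  rw [← Q.h4 hcard hw, map_smul, Q.hB hw, hf, zero_smul, zero_add]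

theorem eq_zero_of {x : C} (hx : Q.θ x = 0) (h : ∀ g : Dual k C, g Q.ε = 0 → g x = 0) : x = 0 := by
  refine (Module.forall_dual_apply_eq_zero_iff k x).1 fun ξ => ?_
  have h1 := h (ξ - ξ Q.ε • Q.θ) (by
    rw [LinearMap.sub_apply, LinearMap.smul_apply, Q.θε, smul_eq_mul, mul_one, sub_self])
  rw [LinearMap.sub_apply, LinearMap.smul_apply, hx, smul_zero, sub_zero] at h1
  exact h1

theorem K_nondeg [CharZero k] (hcard : Fintype.card ι = 12) {w : C} (hw : Q.θ w = 0)
    (hK : Q.K w = 0) : w = 0 := by
  refine Q.eq_zero_of hw fun f hf => ?_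
  have h := Q.h5 hcard hw hf
  rw [hK, map_zero, map_zero] at h
  have h10 : (10 : k) ≠ 0 := by norm_num
  have h2 := (smul_eq_zero.1 h.symm).resolve_left h10
  rw [← Q.δθ, ← map_smul, ← map_add] at h2
  have h3 : f w • Q.θ + f ∘ₗ Q.ad w = 0 := by
    apply Q.inj
    rw [h2, map_zero]
  have h6 := congrArg (fun g : Dual k C => g Q.ε) h3
  simp only [LinearMap.add_apply, LinearMap.smul_apply, LinearMap.comp_apply, Q.ad_ε, map_zero,
    Q.θε, LinearMap.zero_apply, add_zero, smul_eq_mul, mul_one] at h6
  exact h6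

theorem K_surj [CharZero k] [FiniteDimensional k C] (hcard : Fintype.card ι = 12) {f : Dual k C}
    (hf : f Q.ε = 0) : ∃ w : C, Q.θ w = 0 ∧ Q.K w = f := by
  let kap : C →ₗ[k] Dual k C := Q.K + Q.θ.smulRight Q.θ
  have hkap : ∀ x, kap x = Q.K x + Q.θ x • Q.θ := fun x => by
    simp [kap]
  have hinj : Function.Injective kap := by
    rw [← LinearMap.ker_eq_bot, LinearMap.ker_eq_bot']
    intro x hx
    rw [hkap] at hx
    have h1 := congrArg (fun g : Dual k C => g Q.ε) hx
    simp only [LinearMap.add_apply, LinearMap.smul_apply, Q.Kε, Q.θε, LinearMap.zero_apply,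
      zero_add, smul_eq_mul, mul_one] at h1
    rw [h1, zero_smul, add_zero] at hx
    exact Q.K_nondeg hcard h1 hx
  have hsurj : Function.Surjective kap :=
    (LinearMap.injective_iff_surjective_of_finrank_eq_finrank
      (Subspace.dual_finrank_eq (K := k) (V := C)).symm).1 hinj
  obtain ⟨w, hw⟩ := hsurj f
  rw [hkap] at hw
  have h1 := congrArg (fun g : Dual k C => g Q.ε) hw
  simp only [LinearMap.add_apply, LinearMap.smul_apply, Q.Kε, Q.θε, hf,
    zero_add, smul_eq_mul, mul_one] at h1
  rw [h1, zero_smul, add_zero] at hw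
  exact ⟨w, h1, hw⟩

/-! ### stability of the range of `δ` -/

theorem mem_b [CharZero k] [FiniteDimensional k C] (hcard : Fintype.card ι = 12)
    (ξ η : Dual k C) : Q.b ξ (Q.δ η) ∈ LinearMap.range Q.δ := by
  have hθ : ∀ η, Q.b Q.θ (Q.δ η) ∈ LinearMap.range Q.δ := by
    intro η
    rw [Q.hD]
    exact add_mem (LinearMap.mem_range_self _ _) (LinearMap.mem_range_self _ _)
  have hf : ∀ f : Dual k C, f Q.ε = 0 → ∀ η, Q.b f (Q.δ η) ∈ LinearMap.range Q.δ := by
    intro f hf η
    obtain ⟨w, hw, hK⟩ := Q.K_surj hcard (f := η - η Q.ε • Q.θ) (by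
      rw [LinearMap.sub_apply, LinearMap.smul_apply, Q.θε, smul_eq_mul, mul_one, sub_self])
    have h1 : η = η Q.ε • Q.θ + Q.K w := by
      rw [hK]
      abel
    rw [h1, map_add, map_smul, Q.δθ, map_add, map_smul, ← Q.hδ, Q.h5 hcard hw hf, ← Q.δθ]
    refine add_mem (Submodule.smul_mem _ _ (LinearMap.mem_range_self _ _))
      (Submodule.smul_mem _ _ (add_mem (Submodule.smul_mem _ _ (LinearMap.mem_range_self _ _))
        (LinearMap.mem_range_self _ _)))
  have h1 : ξ = ξ Q.ε • Q.θ + (ξ - ξ Q.ε • Q.θ) := by abel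
  rw [h1, map_add, map_smul, LinearMap.add_apply, LinearMap.smul_apply]
  refine add_mem (Submodule.smul_mem _ _ (hθ η)) (hf _ ?_ η)
  rw [LinearMap.sub_apply, LinearMap.smul_apply, Q.θε, smul_eq_mul, mul_one, sub_self]

theorem mem_a'v [CharZero k] [FiniteDimensional k C] (hcard : Fintype.card ι = 12) {w : C}
    (hw : Q.θ w = 0) : Q.a' w Q.v ∈ LinearMap.range Q.δ := by
  have h10 : (10 : k) ≠ 0 := by norm_num
  have h1 : (10 : k) • Q.a' w Q.v = Q.b Q.θ (Q.δ (Q.K w)) := by
    rw [← Q.a'v hw, ← map_smul, Q.h4 hcard hw]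
  have h2 : Q.a' w Q.v = (10 : k)⁻¹ • Q.b Q.θ (Q.δ (Q.K w)) := by
    rw [← h1, smul_smul, inv_mul_cancel₀ h10, one_smul]
  rw [h2]
  exact Submodule.smul_mem _ _ (Q.mem_b hcard _ _)

theorem mem_a' [CharZero k] [FiniteDimensional k C] (hcard : Fintype.card ι = 12) {w : C}
    (hw : Q.θ w = 0) (η : Dual k C) : Q.a' w (Q.δ η) ∈ LinearMap.range Q.δ := by
  rw [Q.hA_all, ← Q.δθ, Q.δθ]
  refine sub_mem (sub_mem (add_mem (Submodule.smul_mem _ _ (Q.mem_a'v hcard hw))
    (Submodule.smul_mem _ _ ?_)) (Submodule.smul_mem _ _ (LinearMap.mem_range_self _ _)))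
    (LinearMap.mem_range_self _ _)
  rw [← Q.δθ]
  exact LinearMap.mem_range_self _ _

theorem mem_ba [CharZero k] [FiniteDimensional k C] (hcard : Fintype.card ι = 12) (x : C)
    (ξ η : Dual k C) : Q.b ξ (Q.a x (Q.δ η)) ∈ LinearMap.range Q.δ := by
  have hW : ∀ w, Q.θ w = 0 → Q.b ξ (Q.a w (Q.δ η)) ∈ LinearMap.range Q.δ := by
    intro w hw
    have h := Q.h1 w ξ (Q.δ η)
    have h2 : Q.b ξ (Q.a w (Q.δ η)) = (2 * ξ w) • Q.δ η + (2 * ξ Q.ε) • Q.a' w (Q.δ η) -
        Q.a' w (Q.b ξ (Q.δ η)) := by
      rw [← h]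
      abel
    rw [h2]
    obtain ⟨η', hη'⟩ := Q.mem_b hcard ξ η
    rw [← hη']
    exact sub_mem (add_mem (Submodule.smul_mem _ _ (LinearMap.mem_range_self _ _))
      (Submodule.smul_mem _ _ (Q.mem_a' hcard hw η))) (Q.mem_a' hcard hw η')
  have h1 : x = Q.θ x • Q.ε + (x - Q.θ x • Q.ε) := by abel
  rw [h1, map_add, map_smul, Q.aε, LinearMap.add_apply, LinearMap.smul_apply, Module.End.one_apply,
    map_add, map_smul]
  refine add_mem (Submodule.smul_mem _ _ (Q.mem_b hcard _ _)) (hW _ ?_)
  rw [map_sub, map_smul, Q.θε, smul_eq_mul, mul_one, sub_self]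

end Core4

end LicciCF

end

section

/-!
MP_a98e4e_ag (licci), module DS0 (helper62): Gorenstein linkage data, their slices, and the core
statement `MainG R c`.
-/

set_option autoImplicit false

namespace Pool.Agent.Licci.D

open IsLocalRing RingTheory.Sequence LicciCodimFour

universe u

/-- Gorenstein linkage data: an ideal `I = range f`, a weakly regular sequence
`f (a 0), …, f (a (c - 1))` generating `A`, and `w` with `A : I = A + (w)` and `A : w = I`. -/
structure GDat (R : Type u) [CommRing R] [IsLocalRing R] {n c : ℕ} (f : (Fin n → R) →ₗ[R] R)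
    (a : Fin c → Fin n → R) (w : R) : Prop where
  mem : ∀ v, f v ∈ maximalIdeal R
  reg : IsWeaklyRegular R (List.ofFn fun i => f (a i))
  col : ∀ y, (∀ v, y * f v ∈ Ideal.span (Set.range fun i => f (a i))) →
      y ∈ Ideal.span (Set.range fun i => f (a i)) ⊔ Ideal.span {w}
  ann : ∀ y, y * w ∈ Ideal.span (Set.range fun i => f (a i)) ↔ y ∈ LinearMap.range f

/-- The data `(f, a, w)` have a slice over a regular local ring of dimension `c`. -/
def Sliced {R : Type u} [CommRing R] [IsLocalRing R] {n c : ℕ} (f : (Fin n → R) →ₗ[R] R)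
    (a : Fin c → Fin n → R) (w : R) : Prop :=
  ∃ (S : Type u) (_ : CommRing S) (_ : IsRegularLocalRing S) (π : R →+* S)
    (f' : (Fin n → S) →ₗ[S] S), Function.Surjective π ∧
    (∀ r, π r ∈ maximalIdeal S ↔ r ∈ maximalIdeal R) ∧ ringKrullDim S = (c : ℕ) ∧
    (∀ v : Fin n → R, f' (fun i => π (v i)) = π (f v)) ∧
    GDat S f' (fun i j => π (a i j)) (π w)

/-- The core statement in codimension `c`: Gorenstein linkage data with `c + 2` generators and with
a slice of dimension `c` define a licci ideal. -/
def MainG (R : Type u) [CommRing R] [IsLocalRing R] (c : ℕ) : Prop :=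
  ∀ (f : (Fin (c + 2) → R) →ₗ[R] R) (a : Fin c → Fin (c + 2) → R) (w : R),
    GDat R f a w → Sliced f a w → IsLicci (LinearMap.range f)

end Pool.Agent.Licci.D

end
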