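import Mathlib
import Pool.Agent.Work.MP_a98e4e_ag.Fu.DLink
import Pool.Agent.Work.MP_a98e4e_ag.Fu.Core.MapsEv
import Pool.Agent.Work.MP_a98e4e_ag.Fu.Cx.Cone
import Pool.Agent.Work.MP_a98e4e_ag.Fu.E.Theta
import Pool.Agent.Work.MP_a98e4e_ag.Fu.L.Jac

section

/-!
# A discrete valuation ring quotient of a regular local ring
-/

set_option autoImplicit false

open IsLocalRing LicciCodimFour

namespace LicciCF

universe u

theorem dvr_of_spanFinrank_eq_one (R : Type u) [CommRing R] [IsRegularLocalRing R]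
    [IsDomain R] (h : (maximalIdeal R).spanFinrank = 1) : IsDiscreteValuationRing R := by
  have hne : maximalIdeal R ≠ ⊥ := by
    intro h0
    rw [h0] at h
    simp at h
  have hnf : ¬ IsField R := fun hf =>
    hne ((IsLocalRing.isField_iff_maximalIdeal_eq).1 hf)
  obtain ⟨S, hScard, hS⟩ := Submodule.FG.exists_span_finset_card_eq_spanFinrank
    (IsNoetherian.noetherian (maximalIdeal R))
  rw [h] at hScard
  obtain ⟨a, rfl⟩ := Finset.card_eq_one.1 hScard
  have hp : (maximalIdeal R).IsPrincipal := ⟨⟨a, by rw [← hS]; simp⟩⟩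
  exact ((IsDiscreteValuationRing.TFAE R hnf).out 4 0).1 hp

/-- A regular local ring of positive dimension has a quotient which is a DVR. -/
theorem exists_dvr_quotient (n : ℕ) : ∀ (R : Type u) [CommRing R] [IsRegularLocalRing R],
    (maximalIdeal R).spanFinrank = n + 1 →
    ∃ (V : Type u) (_ : CommRing V) (_ : IsDomain V) (_ : IsDiscreteValuationRing V)
      (φ : R →+* V), Function.Surjective φ := by
  induction n with
  | zero =>
    intro R _ _ h
    have := isDomain_of_isRegularLocalRing R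
    exact ⟨R, inferInstance, inferInstance, dvr_of_spanFinrank_eq_one R (by simpa using h),
      RingHom.id R, Function.surjective_id⟩
  | succ n ih =>
    intro R _ _ h
    obtain ⟨x, hx, hx2, _⟩ := exists_good_element (R := R) (by omega)
    obtain ⟨hreg, hr⟩ := isRegularLocalRing_quotient hx hx2
    obtain ⟨V, i1, i2, i3, φ, hφ⟩ := ih (R ⧸ Ideal.span {x}) (by omega)
    exact ⟨V, i1, i2, i3, φ.comp (Ideal.Quotient.mk _),
      hφ.comp Ideal.Quotient.mk_surjective⟩

/-- The residue map factors through a local quotient. -/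
theorem exists_factor {R V : Type u} [CommRing R] [IsLocalRing R] [CommRing V] [IsLocalRing V]
    (φ : R →+* V) (hφ : Function.Surjective φ) :
    ∃ ψ : V →+* ResidueField R, ψ.comp φ = residue R := by
  have hloc : IsLocalHom φ := by
    refine ⟨fun a ha => ?_⟩
    by_contra hna
    -- the kernel is contained in the maximal ideal
    have : RingHom.ker φ ≤ maximalIdeal R :=
      le_maximalIdeal (RingHom.ker_ne_top φ)
    obtain ⟨b, hb⟩ := hφ (↑ha.unit⁻¹)
    have h1 : φ (a * b - 1) = 0 := by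
      rw [map_sub, map_mul, hb, map_one]
      simp
    have h2 : a * b - 1 ∈ maximalIdeal R := this h1
    have h3 : a * b ∈ maximalIdeal R := Ideal.mul_mem_right _ _ ((mem_maximalIdeal a).2 hna)
    have h4 : (1 : R) ∈ maximalIdeal R := by
      have := sub_mem h3 h2
      simp at this
    exact (Ideal.ne_top_iff_one _).1 (Ideal.IsPrime.ne_top inferInstance) h4
  refine ⟨RingHom.liftOfSurjective φ hφ ⟨residue R, ?_⟩, ?_⟩
  · intro a ha
    rw [RingHom.mem_ker, residue_eq_zero_iff]
    exact le_maximalIdeal (RingHom.ker_ne_top φ) ha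
  · exact RingHom.liftOfRightInverse_comp _ _ _ _

end LicciCF

end

section

/-!
# The symmetry, the cross relation and the invariance of the form
-/

set_option autoImplicit false
set_option linter.unusedSectionVars false

open Matrix Kronecker RingTheory.Sequence IsLocalRing

namespace LicciCore

open LicciCx Cx Pool.Agent.Licci

universe u

/-- A closed map `K → L^*` is a closed map `K ⊗ L → R`. -/
theorem cl_of_dual {R : Type*} [CommRing R] {J J' : Type*} [Fintype J] [Fintype J']
    [DecidableEq J] [DecidableEq J'] {K : Cx R J} {L : Cx R J'} {f : Matrix J' J R}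
    (hf : Cl K L.dual 0 f) :
    Cl (K.tensor L) (free R Unit 0) 0 (Matrix.of fun _ x => f x.2 x.1) := by
  refine Cl.mk0 ?_ ?_
  · rintro ⟨⟩ ⟨i, j⟩ h
    show f j i = 0
    apply hf.hmg
    intro h1
    apply h
    rw [dual_deg] at h1
    show (0 : ℤ) = K.deg i + L.deg j + 0
    omega
  · rw [free_d, Matrix.zero_mul, eq_comm]
    ext ⟨⟩ ⟨i, j⟩
    rw [Matrix.zero_apply, Matrix.mul_apply, Fintype.sum_prod_type]
    simp only [tensor_d_apply, Matrix.of_apply]
    have h1 : ∑ x, ∑ y, f y x * (K.d x i * (if y = j then 1 else 0) +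
        (if x = i then ((sg (K.deg x) : ℤ) : R) else 0) * L.d y j) =
        (f * K.d) j i + ((sg (K.deg i) : ℤ) : R) * ∑ y, f y i * L.d y j := by
      simp only [mul_add, Finset.sum_add_distrib]
      congr 1
      · rw [Matrix.mul_apply]
        refine Finset.sum_congr rfl fun x _ => ?_
        rw [Finset.sum_eq_single j]
        · simp
        · intro b _ hb; simp [hb]
        · simp
      · rw [Finset.sum_eq_single i]
        · rw [Finset.mul_sum]
          refine Finset.sum_congr rfl fun y _ => ?_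
          rw [if_pos rfl]; ring
        · intro b _ hb; simp [hb]
        · simp
    have h2 := congrFun (congrFun hf.comm0 j) i
    have h3 : (L.dual.d * f) j i = -(((sg (K.deg i) : ℤ) : R) * ∑ y, f y i * L.d y j) := by
      rw [Matrix.mul_apply, dual_d, Finset.mul_sum, ← Finset.sum_neg_distrib]
      refine Finset.sum_congr rfl fun y _ => ?_
      rw [Matrix.neg_apply, Matrix.transpose_apply, Cx.e, ep, Matrix.diagonal_mul]
      by_cases hy : L.deg y = -K.deg i
      · rw [hy, sg_neg]; ring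
      · rw [hf.hmg y i (by rw [dual_deg]; intro h; apply hy; omega)]; ring
    rw [h1, ← h2, h3]
    ring

namespace CoreData

variable {R : Type u} [CommRing R] [IsDomain R] [IsLocalRing R] {p : Fin 248 → R}
  {a : Fin 6 → R} {J : Type} [Fintype J] [DecidableEq J] (D : CoreData R p a J)

/-- `ω(x, y)` -/
noncomputable def w (S : Setup R p a) (x y : J → R) : R := y ⬝ᵥ (D.Om S *ᵥ x)

/-- `ω` as a map `X ⊗ X → R` -/
noncomputable def om (S : Setup R p a) : Matrix Unit (J × J) R :=
  Matrix.of fun _ x => D.Om S x.2 x.1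

theorem cl_om (S : Setup R p a) : Cl (D.X.tensor D.X) (free R Unit 0) 0 (D.om S) :=
  cl_of_dual (D.exists_Om S).choose_spec.1

theorem om_vk (S : Setup R p a) (x y : J → R) : D.om S *ᵥ vk x y = fun _ => D.w S x y := by
  ext ⟨⟩
  rw [Matrix.mulVec, dotProduct, Fintype.sum_prod_type, w, dotProduct, Finset.sum_comm]
  refine Finset.sum_congr rfl fun j _ => ?_
  rw [Matrix.mulVec, dotProduct, Finset.mul_sum]
  refine Finset.sum_congr rfl fun i _ => ?_
  show D.Om S j i * (x i * y j) = _
  ring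

variable {D} in
theorem br_aa (S : Setup R p a) {x y : J → R} (hx : x ∈ D.X.Z0) (hy : y ∈ D.X.Z0) :
    br (D.aa *ᵥ x) (D.aa *ᵥ y) = D.w S x y • p :=
  (D.exists_Om S).choose_spec.2 x hx y hy

end CoreData

theorem Setup.exists_e {R : Type u} [CommRing R] [IsDomain R] [IsLocalRing R] {p : Fin 248 → R}
    {a : Fin 6 → R} (S : Setup R p a) : ∃ e : Fin 248 → R, kf p e ≠ 0 := by
  obtain ⟨n, e, he⟩ := S.pmem 0
  exact ⟨e, by rw [he]; exact pow_ne_zero _ (S.ne 0)⟩

namespace CoreData

variable {R : Type u} [CommRing R] [IsDomain R] [IsLocalRing R] {p : Fin 248 → R}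
  {a : Fin 6 → R} {J : Type} [Fintype J] [DecidableEq J] {D : CoreData R p a J}

theorem mem_BT_of {v : J → R} (hv : v ∈ D.X.Z0) {c r : R} (hc : c ≠ 0)
    (h : c • D.aa *ᵥ v = r • p) : v ∈ D.X.BT := by
  obtain ⟨w, h1, h2, -⟩ := D.ker (c • v) (D.X.Z0.smul_mem c hv) (-r) (by
    rw [Matrix.mulVec_smul, h, neg_smul, add_neg_cancel])
  exact ⟨c, hc, w, h1, h2.symm⟩

theorem w_skew (S : Setup R p a) {x y : J → R} (hx : x ∈ D.X.Z0) (hy : y ∈ D.X.Z0) :
    D.w S x y + D.w S y x = 0 := by
  have h1 := br_aa S hx hy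
  rw [br_skew, br_aa S hy hx, eq_comm, ← sub_eq_zero, sub_neg_eq_add, ← add_smul,
    smul_eq_zero] at h1
  exact h1.resolve_right S.p_ne

/-- the value of `D'` -/
theorem Dp_spec' (S : Setup R p a) {x y z : J → R} (hx : x ∈ D.X.Z0) (hy : y ∈ D.X.Z0)
    (hz : z ∈ D.X.Z0) (e : Fin 248 → R) : D.Dp S *ᵥ vk (vk x y) z ∈ D.X.Z0 ∧
      ∃ r : R, kf p e • D.aa *ᵥ (D.Dp S *ᵥ vk (vk x y) z) =
        br (br (br e (D.aa *ᵥ x)) (D.aa *ᵥ y)) (D.aa *ᵥ z) + r • p := by
  obtain ⟨h1, r, c, hc, h2⟩ := D.Dp_spec S hx hy hz e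
  refine ⟨h1, ?_⟩
  obtain ⟨r', hr'⟩ := S.sat c hc (kf p e • D.aa *ᵥ (D.Dp S *ᵥ vk (vk x y) z) -
    br (br (br e (D.aa *ᵥ x)) (D.aa *ᵥ y)) (D.aa *ᵥ z)) r (by
      rw [smul_sub, smul_smul, h2, add_sub_cancel_left])
  exact ⟨r', by rw [← hr', add_sub_cancel]⟩

theorem br_e_p {S : Setup R p a} [CharZero R] (e : Fin 248 → R) {z : Fin 248 → R}
    (hz : z ∈ F1 p) : ∃ c : R, br (br e p) z = -(kf p e • z + c • p) := by
  obtain ⟨c, hc⟩ := br_p_br S.cone S.sat S.p_ne hz e
  refine ⟨c, ?_⟩
  have h := jacobi e p z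
  rw [br_p_F1 S.cone hz, br_zero_right, hc] at h
  exact eq_neg_of_add_eq_zero_left h.symm

theorem br_br_skew (e x y : Fin 248 → R) : br (br e x) y - br (br e y) x = br e (br x y) := by
  rw [jacobi, br_skew x (br e y), sub_eq_add_neg]

/-- (c) -/
theorem s1 (S : Setup R p a) {x y z : J → R} (hx : x ∈ D.X.Z0) (hy : y ∈ D.X.Z0)
    (hz : z ∈ D.X.Z0) : D.Dp S *ᵥ vk (vk x y) z - D.Dp S *ᵥ vk (vk y x) z +
      D.w S x y • z ∈ D.X.BT := by
  have := S.char0
  obtain ⟨e, he⟩ := S.exists_e
  obtain ⟨h1, r, h2⟩ := Dp_spec' S hx hy hz e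
  obtain ⟨h3, r', h4⟩ := Dp_spec' S hy hx hz e
  obtain ⟨c, hc⟩ := br_e_p (S := S) e (D.mem z hz)
  refine mem_BT_of (add_mem (sub_mem h1 h3) (D.X.Z0.smul_mem _ hz)) he (r := r - r' -
    D.w S x y * c) ?_
  have h5 : br (br (br e (D.aa *ᵥ x)) (D.aa *ᵥ y)) (D.aa *ᵥ z) -
      br (br (br e (D.aa *ᵥ y)) (D.aa *ᵥ x)) (D.aa *ᵥ z) =
      D.w S x y • -(kf p e • D.aa *ᵥ z + c • p) := by
    rw [← br_sub_left, br_br_skew, br_aa S hx hy, br_smul_right, br_smul_left, hc]
  rw [Matrix.mulVec_add, Matrix.mulVec_sub, smul_add, smul_sub, h2, h4, Matrix.mulVec_smul]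
  have h6 := sub_eq_iff_eq_add.1 h5
  rw [h6]
  module

/-- (d) -/
theorem s2 (S : Setup R p a) {x y z : J → R} (hx : x ∈ D.X.Z0) (hy : y ∈ D.X.Z0)
    (hz : z ∈ D.X.Z0) : D.Dp S *ᵥ vk (vk x y) z - D.Dp S *ᵥ vk (vk x z) y +
      D.w S y z • x ∈ D.X.BT := by
  have := S.char0
  obtain ⟨e, he⟩ := S.exists_e
  obtain ⟨h1, r, h2⟩ := Dp_spec' S hx hy hz e
  obtain ⟨h3, r', h4⟩ := Dp_spec' S hx hz hy e
  obtain ⟨c, hc⟩ := br_p_br S.cone S.sat S.p_ne (D.mem x hx) e
  refine mem_BT_of (add_mem (sub_mem h1 h3) (D.X.Z0.smul_mem _ hx)) he (r := r - r' -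
    D.w S y z * c) ?_
  have h5 : br (br (br e (D.aa *ᵥ x)) (D.aa *ᵥ y)) (D.aa *ᵥ z) -
      br (br (br e (D.aa *ᵥ x)) (D.aa *ᵥ z)) (D.aa *ᵥ y) =
      D.w S y z • -(kf p e • D.aa *ᵥ x + c • p) := by
    rw [br_br_skew, br_aa S hy hz, br_smul_right, br_skew, hc]
  rw [Matrix.mulVec_add, Matrix.mulVec_sub, smul_add, smul_sub, h2, h4, Matrix.mulVec_smul]
  have h6 := sub_eq_iff_eq_add.1 h5
  rw [h6]
  module

/-- (e) -/
theorem s3 (S : Setup R p a) {x y z v : J → R} (hx : x ∈ D.X.Z0) (hy : y ∈ D.X.Z0)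
    (hz : z ∈ D.X.Z0) (hv : v ∈ D.X.Z0) :
    D.w S (D.Dp S *ᵥ vk (vk x y) z) v + D.w S z (D.Dp S *ᵥ vk (vk x y) v) +
      D.w S x y * D.w S z v = 0 := by
  have := S.char0
  obtain ⟨e, he⟩ := S.exists_e
  obtain ⟨h1, r, h2⟩ := Dp_spec' S hx hy hz e
  obtain ⟨h3, r', h4⟩ := Dp_spec' S hx hy hv e
  obtain ⟨c, hc⟩ := br_p_br S.cone S.sat S.p_ne (D.mem x hx) e
  have hpv : br p (D.aa *ᵥ v) = 0 := br_p_F1 S.cone (D.mem v hv)
  have hpy : br p (D.aa *ᵥ y) = 0 := br_p_F1 S.cone (D.mem y hy)
  have hzp : br (D.aa *ᵥ z) p = 0 := by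
    rw [br_skew, br_p_F1 S.cone (D.mem z hz), neg_zero]
  have hyp : br (D.aa *ᵥ y) p = 0 := by rw [br_skew, hpy, neg_zero]
  set T := br (br e (D.aa *ᵥ x)) (D.aa *ᵥ y) with hT
  have hTp : br T p = -((kf p e * D.w S x y) • p) := by
    have h5 := jacobi (br e (D.aa *ᵥ x)) (D.aa *ᵥ y) p
    rw [hyp, br_zero_right, ← hT, br_skew (br e (D.aa *ᵥ x)) p, hc, br_neg_right, br_add_right,
      br_smul_right, br_smul_right, hyp, smul_zero, add_zero, br_skew (D.aa *ᵥ y),
      br_aa S hx hy] at h5
    have h6 := eq_neg_of_add_eq_zero_left h5.symm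
    rw [h6]
    module
  have h5 : kf p e • br (D.aa *ᵥ (D.Dp S *ᵥ vk (vk x y) z)) (D.aa *ᵥ v) =
      br (br T (D.aa *ᵥ z)) (D.aa *ᵥ v) := by
    rw [← br_smul_left, h2, br_add_left, br_smul_left, hpv, smul_zero, add_zero]
  have h6 : kf p e • br (D.aa *ᵥ z) (D.aa *ᵥ (D.Dp S *ᵥ vk (vk x y) v)) =
      br (D.aa *ᵥ z) (br T (D.aa *ᵥ v)) := by
    rw [← br_smul_right, h4, br_add_right, br_smul_right, hzp, smul_zero, add_zero]
  have h7 := jacobi T (D.aa *ᵥ z) (D.aa *ᵥ v)
  rw [br_aa S hz hv, br_smul_right, hTp, ← h5, ← h6, br_aa S h1 hv, br_aa S hz h3] at h7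
  have h8 : (kf p e * (D.w S (D.Dp S *ᵥ vk (vk x y) z) v + D.w S z (D.Dp S *ᵥ vk (vk x y) v) +
      D.w S x y * D.w S z v)) • p = 0 := by
    have h9 := sub_eq_zero.2 h7
    rw [← neg_eq_zero] at h9
    rw [← h9]
    module
  rw [smul_eq_zero] at h8
  exact (mul_eq_zero.1 (h8.resolve_right S.p_ne)).resolve_left he

end CoreData

end LicciCore

end

section

/-!
# Symmetry, crossing, invariance over the residue field
-/

set_option autoImplicit false
set_option linter.unusedSectionVars false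

open Matrix Kronecker RingTheory.Sequence IsLocalRing

namespace LicciCore

open LicciCx Cx Pool.Agent.Licci

universe u

namespace CoreData

variable {R : Type u} [CommRing R] [IsDomain R] [IsLocalRing R] {p : Fin 248 → R}
  {a : Fin 6 → R} {J : Type} [Fintype J] [DecidableEq J] (D : CoreData R p a J)

theorem residue_sg (n : ℤ) : residue R ((sg n : ℤ) : R) = ((sg n : ℤ) : ResidueField R) :=
  map_intCast _ _

theorem residue_ite (P : Prop) [Decidable P] : residue R (if P then 1 else 0) =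
    (if P then 1 else 0) := by
  split_ifs <;> simp

theorem sf0_bd (S : Setup R p a) : Bd (D.X.tensor D.X) (free R Unit 0) 0
    (D.om S + D.om S * sw D.X D.X) := by
  refine uniq2 a S.reg S.ne D.ue D.ue (fun i => UE.free _) ?_ ?_ ?_
  · intro i j k
    have h1 := D.deg_le j
    have h2 := D.deg_le k
    rw [free_deg]
    omega
  · exact (D.cl_om S).add (((D.cl_om S).mul (cl_sw D.X D.X)).cast (by ring))
  · intro z₁ h1 z₂ h2
    rw [Matrix.add_mulVec, ← Matrix.mulVec_mulVec, sw_vk D.X D.X h1 h2, om_vk, om_vk]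
    have : ((fun _ => D.w S z₁ z₂) + fun _ => D.w S z₂ z₁ : Unit → R) = 0 := by
      ext ⟨⟩
      exact w_skew S h1 h2
    rw [this]
    exact zero_mem _

theorem sf1_bd (S : Setup R p a) : Bd ((D.X.tensor D.X).tensor D.X) D.X 0
    (sf1 D.X (D.om S) (D.Dp S)) := by
  refine uniq3 a S.reg S.ne D.ue D.ue D.ue D.ue ?_ (cl_sf1 (D.cl_om S) (D.cl_Dp S)) ?_
  · intro i j k l
    have h0 := D.le_deg i
    have h1 := D.deg_le j
    have h2 := D.deg_le k
    have h3 := D.deg_le l
    omega
  · intro x hx y hy z hz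
    have h := s1 S hx hy hz
    rw [sf1, Matrix.add_mulVec, Matrix.sub_mulVec, ← Matrix.mulVec_mulVec,
      ← Matrix.mulVec_mulVec, kron_vk, kron_vk, Matrix.one_mulVec, sw_vk D.X D.X hx hy, om_vk,
      lun_vk]
    exact h

theorem sf2_bd (S : Setup R p a) : Bd ((D.X.tensor D.X).tensor D.X) D.X 0
    (sf2 D.X (D.om S) (D.Dp S)) := by
  refine uniq3 a S.reg S.ne D.ue D.ue D.ue D.ue ?_ (cl_sf2 (D.cl_om S) (D.cl_Dp S)) ?_
  · intro i j k l
    have h0 := D.le_deg i
    have h1 := D.deg_le j
    have h2 := D.deg_le k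
    have h3 := D.deg_le l
    omega
  · intro x hx y hy z hz
    have h := s2 S hx hy hz
    rw [sf2, Matrix.add_mulVec, Matrix.sub_mulVec, ← Matrix.mulVec_mulVec,
      ← Matrix.mulVec_mulVec, ← Matrix.mulVec_mulVec, ← Matrix.mulVec_mulVec,
      ← Matrix.mulVec_mulVec, asc_vk, kron_vk, kron_vk, Matrix.one_mulVec,
      sw_vk D.X D.X hy hz, om_vk, rn_vk, asi_vk]
    exact h

theorem sf3_bd (S : Setup R p a) : Bd (((D.X.tensor D.X).tensor D.X).tensor D.X) (free R Unit 0) 0
    (sf3 D.X (D.om S) (D.Dp S)) := by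
  refine uniq4 a S.reg S.ne D.ue D.ue D.ue D.ue (fun i => UE.free _) ?_
    (cl_sf3 (D.cl_om S) (D.cl_Dp S)) ?_
  · intro i j k l m
    have h0 := D.deg_le m
    have h1 := D.deg_le j
    have h2 := D.deg_le k
    have h3 := D.deg_le l
    rw [free_deg]
    omega
  · intro x hx y hy z hz v hv
    have h := s3 S hx hy hz hv
    have h1 : sf3 D.X (D.om S) (D.Dp S) *ᵥ vk (vk (vk x y) z) v = 0 := by
      rw [sf3, Matrix.add_mulVec, Matrix.add_mulVec, ← Matrix.mulVec_mulVec,
        ← Matrix.mulVec_mulVec, ← Matrix.mulVec_mulVec, ← Matrix.mulVec_mulVec,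
        ← Matrix.mulVec_mulVec, kron_vk, kron_vk, kron_vk, Matrix.one_mulVec,
        sw_vk (D.X.tensor D.X) D.X (vk_mem D.X D.X hx hy) hz, asc_vk, kron_vk, Matrix.one_mulVec,
        om_vk, om_vk, ← Matrix.mulVec_mulVec, kron_vk, Matrix.one_mulVec, om_vk, lun_vk, om_vk]
      ext ⟨⟩
      have h2 : D.w S (D.w S x y • z) v = D.w S x y * D.w S z v := by
        rw [w, Matrix.mulVec_smul, dotProduct_smul, smul_eq_mul]
        rfl
      show D.w S (D.Dp S *ᵥ vk (vk x y) z) v + D.w S z (D.Dp S *ᵥ vk (vk x y) v) +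
        D.w S (D.w S x y • z) v = 0
      rw [h2]
      exact h
    rw [h1]
    exact zero_mem _

theorem XX_d_map : (D.X.tensor D.X).d.map (residue R) = 0 :=
  tensor_d_map_eq_zero _ D.X_d_map D.X_d_map

theorem XXX_d_map : ((D.X.tensor D.X).tensor D.X).d.map (residue R) = 0 :=
  tensor_d_map_eq_zero _ D.XX_d_map D.X_d_map

theorem XXXX_d_map : (((D.X.tensor D.X).tensor D.X).tensor D.X).d.map (residue R) = 0 :=
  tensor_d_map_eq_zero _ D.XXX_d_map D.X_d_map

theorem free_d_map : (free R Unit 0).d.map (residue R) = 0 := by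
  ext i j
  simp

theorem omk_eq (S : Setup R p a) (i j : J) : residue R (D.om S () (i, j)) = D.omk S i j := rfl

theorem omk_symm (S : Setup R p a) (i j : J) :
    D.omk S i j = -(kz (ResidueField R) (D.X.deg i) (D.X.deg j) * D.omk S j i) := by
  have h := congrFun (congrFun ((D.sf0_bd S).map_eq_zero _ D.XX_d_map free_d_map) ()) (i, j)
  rw [Matrix.map_apply, Matrix.add_apply, mul_sw, map_add, map_mul, residue_sg, omk_eq, omk_eq,
    Matrix.zero_apply] at h
  exact eq_neg_of_add_eq_zero_left h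

theorem Dpk_symm (S : Setup R p a) (i j l m : J) : D.Dpk S i j l m -
    kz (ResidueField R) (D.X.deg i) (D.X.deg j) * D.Dpk S j i l m +
      D.omk S i j * (if l = m then 1 else 0) = 0 := by
  have h := congrFun (congrFun ((D.sf1_bd S).map_eq_zero _ D.XXX_d_map D.X_d_map) m) ((i, j), l)
  rw [Matrix.map_apply, sf1_apply, map_add, map_sub, map_mul, map_mul, residue_sg, omk_eq,
    Matrix.zero_apply, residue_ite] at h
  exact h

theorem Dpk_cross (S : Setup R p a) (i j l m : J) : D.Dpk S i j l m -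
    kz (ResidueField R) (D.X.deg j) (D.X.deg l) * D.Dpk S i l j m +
      D.omk S j l * (if i = m then 1 else 0) = 0 := by
  have h := congrFun (congrFun ((D.sf2_bd S).map_eq_zero _ D.XXX_d_map D.X_d_map) m) ((i, j), l)
  rw [Matrix.map_apply, sf2_apply, map_add, map_sub, map_mul, map_mul, residue_sg, omk_eq,
    Matrix.zero_apply, residue_ite] at h
  exact h

theorem Dpk_sp (S : Setup R p a) (i j l r : J) : ∑ m, D.Dpk S i j l m * D.omk S m r +
    kz (ResidueField R) (D.X.deg l) (D.X.deg i + D.X.deg j) *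
      ∑ m, D.omk S l m * D.Dpk S i j r m + D.omk S i j * D.omk S l r = 0 := by
  have h := congrFun (congrFun ((D.sf3_bd S).map_eq_zero _ D.XXXX_d_map free_d_map) ())
    (((i, j), l), r)
  rw [Matrix.map_apply, sf3_apply, map_add, map_add, map_mul, map_mul, residue_sg, omk_eq, omk_eq,
    Matrix.zero_apply, map_sum, map_sum, mul_comm (D.X.deg i + D.X.deg j)] at h
  simp only [map_mul, omk_eq] at h
  rw [← h]
  congr 2
  exact Finset.sum_congr rfl fun m _ => mul_comm _ _

theorem kz_mul_self (m n : ℤ) : kz (ResidueField R) m n * kz (ResidueField R) m n = 1 := by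
  rw [kz, ← Int.cast_mul, sg_mul_self, Int.cast_one]

theorem Dk_symm (S : Setup R p a) (i j l m : J) : D.Dk S i j l m =
    kz (ResidueField R) (D.X.deg i) (D.X.deg j) * D.Dk S j i l m := by
  have h1 := D.Dpk_symm S i j l m
  have h2 := D.omk_symm S i j
  rw [Dk, Dk]
  linear_combination (-2) * h1 + (if l = m then (1 : ResidueField R) else 0) * h2

theorem Dk_cross (S : Setup R p a) (i j l m : J) :
    D.Dk S i j l m - kz (ResidueField R) (D.X.deg j) (D.X.deg l) * D.Dk S i l j m =
    2 * D.omk S j l * (if i = m then 1 else 0) - D.omk S i j * (if l = m then 1 else 0) +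
      kz (ResidueField R) (D.X.deg j) (D.X.deg l) * D.omk S i l * (if j = m then 1 else 0) := by
  have h1 := D.Dpk_cross S i j l m
  rw [Dk, Dk]
  linear_combination (-2) * h1

theorem Dk_sp (S : Setup R p a) (i j l r : J) : ∑ m, D.Dk S i j l m * D.omk S m r +
    kz (ResidueField R) (D.X.deg l) (D.X.deg i + D.X.deg j) *
      ∑ m, D.omk S l m * D.Dk S i j r m = 0 := by
  have h1 := D.Dpk_sp S i j l r
  have h2 : ∑ m, D.Dk S i j l m * D.omk S m r =
      -2 * ∑ m, D.Dpk S i j l m * D.omk S m r - D.omk S i j * D.omk S l r := by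
    simp only [Dk, sub_mul, Finset.sum_sub_distrib, Finset.mul_sum]
    congr 1
    · exact Finset.sum_congr rfl fun m _ => by ring
    · rw [Finset.sum_eq_single l]
      · simp
      · intro b _ hb; simp [Ne.symm hb]
      · simp
  have h3 : ∑ m, D.omk S l m * D.Dk S i j r m =
      -2 * ∑ m, D.omk S l m * D.Dpk S i j r m - D.omk S i j * D.omk S l r := by
    simp only [Dk, mul_sub, Finset.sum_sub_distrib, Finset.mul_sum]
    congr 1
    · exact Finset.sum_congr rfl fun m _ => by ring
    · rw [Finset.sum_eq_single r]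
      · simp [mul_comm]
      · intro b _ hb; simp [Ne.symm hb]
      · simp
  have h4 : kz (ResidueField R) (D.X.deg l) (D.X.deg i + D.X.deg j) * D.omk S i j =
      D.omk S i j := by
    by_cases h : D.X.deg i + D.X.deg j = 0
    · rw [h, kz, mul_zero, sg_zero, Int.cast_one, one_mul]
    · rw [D.omk_deg S i j h, mul_zero]
  rw [h2, h3]
  linear_combination (-2) * h1 - D.omk S l r * h4

end CoreData

end LicciCore

end

section

/-!
# The leading form of the differential of a complex over a regular local ring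

`X` is a complex of finite free modules in degrees `≤ 1` over a regular local ring `R` of positive
dimension, contractible outside degree `0` up to a power of every element of the maximal ideal,
with a basis element of degree `1`.  Then there is a nonzero matrix `de` over the residue field,
homogeneous of degree `1` and of square zero, which satisfies every linear relation (with
coefficients in `R`) that is satisfied by the differential of `X`.
-/

set_option autoImplicit false

open Matrix IsLocalRing LicciCodimFour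

namespace LicciCx

universe u

/-- The leading form of a nonzero matrix over a regular local ring, along a DVR quotient. -/
theorem exists_lead_matrix {R : Type u} [CommRing R] [IsRegularLocalRing R] {V : Type u}
    [CommRing V] [IsDomain V] [IsDiscreteValuationRing V] (φ : R →+* V)
    (hφ : Function.Surjective φ) {J J' : Type*} [Fintype J] [Fintype J'] [DecidableEq J]
    [DecidableEq J'] (d : Matrix J' J R) (hne : ∃ i j, φ (d i j) ≠ 0) :
    ∃ (t : V) (d' : Matrix J' J V) (ψ : V →+* ResidueField R), t ≠ 0 ∧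
      ψ.comp φ = residue R ∧ (∀ i j, φ (d i j) = t * d' i j) ∧ d'.map ψ ≠ 0 := by
  classical
  obtain ⟨ψ, hψ⟩ := LicciCF.exists_factor φ hφ
  have hfin : ∀ s : Finset (J' × J), s.Nonempty →
      ∃ a ∈ s, ∀ b ∈ s, φ (d a.1 a.2) ∣ φ (d b.1 b.2) := by
    intro s hs
    induction hs using Finset.Nonempty.cons_induction with
    | singleton a =>
      exact ⟨a, Finset.mem_singleton_self a, fun b hb => by rw [Finset.mem_singleton.1 hb]⟩
    | cons a s ha hs ih =>
      obtain ⟨c, hc, hcs⟩ := ih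
      rcases ValuationRing.dvd_total (φ (d a.1 a.2)) (φ (d c.1 c.2)) with h1 | h1
      · refine ⟨a, Finset.mem_cons_self a s, fun b hb => ?_⟩
        rcases Finset.mem_cons.1 hb with rfl | hb
        · exact dvd_rfl
        · exact h1.trans (hcs b hb)
      · refine ⟨c, Finset.mem_cons_of_mem hc, fun b hb => ?_⟩
        rcases Finset.mem_cons.1 hb with rfl | hb
        · exact h1
        · exact hcs b hb
  obtain ⟨i₀, p₀, h₀⟩ := hne
  obtain ⟨⟨i, p⟩, -, hdvd⟩ := hfin Finset.univ ⟨(i₀, p₀), Finset.mem_univ _⟩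
  have hne : φ (d i p) ≠ 0 := fun h0 => h₀ (by
    have := hdvd (i₀, p₀) (Finset.mem_univ _)
    simp only [h0, zero_dvd_iff] at this
    exact this)
  have hall : ∀ j q, φ (d i p) ∣ φ (d j q) := fun j q => hdvd (j, q) (Finset.mem_univ _)
  choose d' hd' using hall
  refine ⟨φ (d i p), Matrix.of d', ψ, hne, hψ, fun i j => hd' i j, fun h0 => ?_⟩
  have h3 : d' i p = 1 := (mul_left_cancel₀ hne (by rw [mul_one]; exact hd' i p)).symm
  have h4 := congrFun (congrFun h0 i) p
  rw [Matrix.map_apply, Matrix.of_apply, h3, map_one, Matrix.zero_apply] at h4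
  exact one_ne_zero h4

namespace Cx

theorem exists_lead {R : Type u} [CommRing R] [IsRegularLocalRing R]
    (hdim : 0 < (maximalIdeal R).spanFinrank) {J : Type*} [Fintype J] [DecidableEq J]
    (X : Cx R J) (htop : ∀ j, X.deg j ≤ 1) (hone : ∃ j, X.deg j = 1)
    (hUE : ∀ y ∈ maximalIdeal R, UE X y) :
    ∃ de : Matrix J J (ResidueField R), Hmg X.deg X.deg 1 de ∧ de ≠ 0 ∧ de * de = 0 ∧
      ∀ c : Matrix J J R, ∑ i, ∑ j, c i j * X.d i j = 0 →
        ∑ i, ∑ j, residue R (c i j) * de i j = 0 := by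
  classical
  obtain ⟨n, hn⟩ : ∃ n, (maximalIdeal R).spanFinrank = n + 1 :=
    ⟨_, (Nat.succ_pred_eq_of_pos hdim).symm⟩
  obtain ⟨V, _, _, _, φ, hφ⟩ := LicciCF.exists_dvr_quotient n R hn
  -- the differential is nonzero over `V`
  have hne : ∃ i j, φ (X.d i j) ≠ 0 := by
    obtain ⟨t, ht⟩ := IsDiscreteValuationRing.exists_irreducible V
    obtain ⟨y, hy⟩ := hφ t
    have hym : y ∈ maximalIdeal R := by
      rw [mem_maximalIdeal]
      intro hu
      exact ht.not_isUnit (hy ▸ hu.map φ)
    obtain ⟨N, h, _, hsup⟩ := hUE y hym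
    obtain ⟨j, hj⟩ := hone
    have h1 := hsup j j (by rintro ⟨h2, _⟩; omega)
    have h2 : (h * X.d) j j = 0 := by
      rw [Matrix.mul_apply]
      refine Finset.sum_eq_zero fun l _ => ?_
      rw [X.hmg l j (by have := htop l; omega), mul_zero]
    rw [Matrix.sub_apply, Matrix.add_apply, h2, add_zero, Matrix.smul_apply, Matrix.one_apply_eq,
      smul_eq_mul, mul_one, Matrix.mul_apply] at h1
    by_contra hcon
    push Not at hcon
    have h3 := congrArg φ h1
    rw [map_sub, map_pow, hy, map_sum, map_zero] at h3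
    rw [Finset.sum_eq_zero fun l _ => by rw [map_mul, hcon, zero_mul], sub_zero] at h3
    exact pow_ne_zero N ht.ne_zero h3
  obtain ⟨t, d', ψ, ht, hψ, hd', hne'⟩ := exists_lead_matrix φ hφ X.d hne
  have hψ' : ∀ r, ψ (φ r) = residue R r := fun r => by rw [← hψ]; rfl
  refine ⟨d'.map ψ, ?_, hne', ?_, ?_⟩
  · intro i j hij
    have h1 := hd' i j
    rw [X.hmg i j hij, map_zero] at h1
    rw [Matrix.map_apply, (mul_eq_zero.1 h1.symm).resolve_left ht, map_zero]
  · have h1 : d' * d' = 0 := by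
      ext i j
      have h2 := congrArg φ (congrFun (congrFun X.sq i) j)
      rw [Matrix.mul_apply, map_sum, Matrix.zero_apply, map_zero] at h2
      have h3 : t * t * (d' * d') i j = 0 := by
        rw [← h2, Matrix.mul_apply, Finset.mul_sum]
        refine Finset.sum_congr rfl fun l _ => ?_
        rw [map_mul, hd', hd']; ring
      simpa [ht] using h3
    rw [← Matrix.map_mul, h1]
    exact Matrix.map_zero _ (map_zero ψ)
  · intro c hc
    have h1 := congrArg φ hc
    rw [map_sum, map_zero] at h1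
    have h2 : t * ∑ i, ∑ j, φ (c i j) * d' i j = 0 := by
      rw [← h1, Finset.mul_sum]
      refine Finset.sum_congr rfl fun i _ => ?_
      rw [map_sum, Finset.mul_sum]
      refine Finset.sum_congr rfl fun j _ => ?_
      rw [map_mul, hd']; ring
    have h3 := congrArg ψ ((mul_eq_zero.1 h2).resolve_left ht)
    rw [map_sum, map_zero] at h3
    rw [← h3]
    refine Finset.sum_congr rfl fun i _ => ?_
    rw [map_sum]
    refine Finset.sum_congr rfl fun j _ => ?_
    rw [map_mul, hψ', Matrix.map_apply]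

end Cx

end LicciCx

end

section

/-!
# The leading form of the differential
-/

set_option autoImplicit false
set_option linter.unusedSectionVars false

open Matrix Kronecker RingTheory.Sequence IsLocalRing

namespace LicciCx

namespace Cx

variable {R : Type*} [CommRing R] {J : Type*} [Fintype J] [DecidableEq J]

/-- the scalars up to which `K` is contractible outside degree `0` -/
def conIdeal (K : Cx R J) : Ideal R where
  carrier := {c | Con K c}
  add_mem' := by
    rintro c c' ⟨h, h1, h2⟩ ⟨h', h1', h2'⟩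
    refine ⟨h + h', Hmg.add h1 h1', ?_⟩
    have := Sup0.add h2 h2'
    convert this using 1
    rw [Matrix.mul_add, Matrix.add_mul, add_smul]
    abel
  zero_mem' := ⟨0, Hmg.zero, by
    rw [Matrix.mul_zero, Matrix.zero_mul, zero_smul, add_zero, sub_zero]
    exact Sup0.zero⟩
  smul_mem' := fun c c' h => h.smul c

theorem ue_iff (K : Cx R J) (c : R) : UE K c ↔ c ∈ K.conIdeal.radical := Iff.rfl

theorem ue_of_span {ι : Type*} (K : Cx R J) (a : ι → R) (ha : ∀ i, UE K (a i)) {y : R}
    (hy : y ∈ Ideal.span (Set.range a)) : UE K y := by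
  rw [ue_iff]
  refine (Ideal.span_le.2 ?_) hy
  rintro _ ⟨i, rfl⟩
  exact (ue_iff K (a i)).1 (ha i)

end Cx

end LicciCx

namespace LicciCore

open LicciCx Cx Pool.Agent.Licci

universe u

namespace CoreData

section

variable {R : Type u} [CommRing R] [IsDomain R] [IsLocalRing R] {p : Fin 248 → R}
  {a : Fin 6 → R} {J : Type} [Fintype J] [DecidableEq J] (D : CoreData R p a J)

/-- `-2 D' - ω` over `R` -/
noncomputable def DR (S : Setup R p a) : Matrix J ((J × J) × J) R :=
  -((2 : R) • D.Dp S) - lun R J * (D.om S ⊗ₖ (1 : Matrix J J R))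

theorem cl_DR (S : Setup R p a) : Cl ((D.X.tensor D.X).tensor D.X) D.X 0 (D.DR S) := by
  refine (((D.cl_Dp S).smul 2).neg).sub ?_
  exact ((cl_lun D.X).mul ((D.cl_om S).kron Cl.one)).cast (by ring)

theorem DR_apply (S : Setup R p a) (m i j l : J) : D.DR S m ((i, j), l) =
    -(2 * D.Dp S m ((i, j), l)) - D.om S () (i, j) * (if l = m then 1 else 0) := by
  have h2 : (lun R J * (D.om S ⊗ₖ (1 : Matrix J J R))) m ((i, j), l) =
      D.om S () (i, j) * (if l = m then 1 else 0) := by
    rw [lun_mul, Matrix.kroneckerMap_apply, Matrix.one_apply]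
    simp only [eq_comm]
  rw [DR, Matrix.sub_apply, h2, Matrix.neg_apply, Matrix.smul_apply, smul_eq_mul]

theorem residue_DR (S : Setup R p a) (m i j l : J) :
    residue R (D.DR S m ((i, j), l)) = D.Dk S i j l m := by
  rw [DR_apply, map_sub, map_neg, map_mul, map_mul, omk_eq, residue_ite, Dk, Dpk, map_ofNat]

theorem mul_tensor_d {A J' : Type*} [Fintype J'] [DecidableEq J'] [Fintype A] [DecidableEq A] {K : Cx R J} {L : Cx R J'}
    (M : Matrix A (J × J') R) (x : A) (i : J) (j : J') :
    (M * (K.tensor L).d) x (i, j) = ∑ s, M x (s, j) * K.d s i +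
      ((sg (K.deg i) : ℤ) : R) * ∑ s, M x (i, s) * L.d s j := by
  rw [tensor_d, Matrix.mul_add, Matrix.add_apply, mul_kron_one]
  congr 1
  have h1 : K.e ⊗ₖ L.d = (K.e ⊗ₖ (1 : Matrix J' J' R)) * ((1 : Matrix J J R) ⊗ₖ L.d) := by
    rw [← Matrix.mul_kronecker_mul, Matrix.mul_one, Matrix.one_mul]
  rw [h1, ← Matrix.mul_assoc, mul_one_kron, Finset.mul_sum]
  refine Finset.sum_congr rfl fun s _ => ?_
  rw [mul_kron_one, Finset.sum_eq_single i]
  · rw [Cx.e, ep, Matrix.diagonal_apply_eq]; ring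
  · intro b _ hb
    rw [Cx.e, ep, Matrix.diagonal_apply_ne _ hb, mul_zero]
  · simp

/-- the relations satisfied by the differential -/
theorem om_rel (S : Setup R p a) (i j : J) :
    ∑ s, D.om S () (s, j) * D.X.d s i +
      ((sg (D.X.deg i) : ℤ) : R) * ∑ s, D.om S () (i, s) * D.X.d s j = 0 := by
  rw [← mul_tensor_d, ← (D.cl_om S).comm0, free_d, Matrix.zero_mul, Matrix.zero_apply]

theorem DR_rel (S : Setup R p a) (i j l m : J) :
    ∑ s, D.X.d m s * D.DR S s ((i, j), l) =
      ∑ s, D.DR S m ((s, j), l) * D.X.d s i +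
      ((sg (D.X.deg i) : ℤ) : R) * ∑ s, D.DR S m ((i, s), l) * D.X.d s j +
      ((sg (D.X.deg i + D.X.deg j) : ℤ) : R) * ∑ s, D.DR S m ((i, j), s) * D.X.d s l := by
  have h1 := congrFun (congrFun (D.cl_DR S).comm0 m) ((i, j), l)
  rw [mul_tensor_d, Matrix.mul_apply] at h1
  rw [h1, tensor_deg]
  congr 1
  exact mul_tensor_d (Matrix.of fun m x => D.DR S m (x, l)) m i j

end

theorem sum_col {A : Type*} [CommRing A] {J : Type*} [Fintype J] [DecidableEq J] (f : J → A)
    (d : Matrix J J A) (i : J) :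
    ∑ s, ∑ t, f s * (if t = i then 1 else 0) * d s t = ∑ s, f s * d s i := by
  refine Finset.sum_congr rfl fun s _ => ?_
  simp

theorem sum_row {A : Type*} [CommRing A] {J : Type*} [Fintype J] [DecidableEq J] (f : J → A)
    (d : Matrix J J A) (m : J) :
    ∑ s, ∑ t, (if s = m then 1 else 0) * f t * d s t = ∑ t, f t * d m t := by
  rw [Finset.sum_comm]
  refine Finset.sum_congr rfl fun s _ => ?_
  simp

theorem exists_sder {R : Type u} [CommRing R] [IsDomain R] [IsRegularLocalRing R]
    {p : Fin 248 → R} {a : Fin 6 → R} {J : Type} [Fintype J] [DecidableEq J]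
    (D : CoreData R p a J) (S : Setup R p a) (ha : Ideal.span (Set.range a) = maximalIdeal R)
    (h : ∃ j, D.X.deg j = 1) :
    ∃ de, SDer D.X.deg (D.omk S) (D.Dk S) de := by
  have hdim : 0 < (maximalIdeal R).spanFinrank := by
    rw [Nat.pos_iff_ne_zero]
    intro h0
    have h1 : maximalIdeal R = ⊥ :=
      (Submodule.spanFinrank_eq_zero_iff_eq_bot (IsNoetherian.noetherian _)).1 h0
    have h2 := S.mem 0
    rw [h1, Ideal.mem_bot] at h2
    exact S.ne 0 h2
  obtain ⟨de, h1, h2, h3, h4⟩ := exists_lead hdim D.X D.deg_le h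
    (fun y hy => ue_of_span D.X a D.ue (by rw [ha]; exact hy))
  refine ⟨de, ?_, h2, h3, ?_, ?_⟩
  · intro i j hij
    exact h1 i j hij
  · intro i j
    have h5 := h4 (fun s t => D.om S () (s, j) * (if t = i then 1 else 0) +
      ((sg (D.X.deg i) : ℤ) : R) * D.om S () (i, s) * (if t = j then 1 else 0)) (by
        have h6 := D.om_rel S i j
        simp only [add_mul, Finset.sum_add_distrib]
        rw [sum_col, sum_col, ← h6, Finset.mul_sum]
        congr 1
        exact Finset.sum_congr rfl fun s _ => by ring)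
    simp only [map_add, map_mul, residue_sg, residue_ite, omk_eq, add_mul,
      Finset.sum_add_distrib] at h5
    rw [sum_col, sum_col] at h5
    rw [← h5, Finset.mul_sum, kz, mul_one]
    congr 1
    exact Finset.sum_congr rfl fun s _ => by ring
  · intro i j l m
    have h5 := h4 (fun s t => (if s = m then 1 else 0) * D.DR S t ((i, j), l) -
      D.DR S m ((s, j), l) * (if t = i then 1 else 0) -
      ((sg (D.X.deg i) : ℤ) : R) * D.DR S m ((i, s), l) * (if t = j then 1 else 0) -
      ((sg (D.X.deg i + D.X.deg j) : ℤ) : R) * D.DR S m ((i, j), s) * (if t = l then 1 else 0)) (by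
        have h6 := sub_eq_zero.2 (D.DR_rel S i j l m)
        simp only [sub_mul, Finset.sum_sub_distrib]
        rw [sum_col, sum_col, sum_col, sum_row, ← h6, Finset.mul_sum, Finset.mul_sum,
          ← sub_sub, ← sub_sub]
        congr 1
        · congr 1
          · congr 1
            exact Finset.sum_congr rfl fun s _ => by ring
          · exact Finset.sum_congr rfl fun s _ => by ring
        · exact Finset.sum_congr rfl fun s _ => by ring)
    simp only [map_sub, map_mul, residue_sg, residue_ite, residue_DR, sub_mul,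
      Finset.sum_sub_distrib] at h5
    rw [sum_col, sum_col, sum_col, sum_row] at h5
    have h7 : ∀ x : ℤ, kz (ResidueField R) x 1 = ((sg x : ℤ) : ResidueField R) := fun x => by
      rw [kz, mul_one]
    rw [← sub_eq_zero, ← h5, Finset.mul_sum, Finset.mul_sum, ← sub_sub, ← sub_sub, h7, h7]
    congr 1
    · congr 1
      · congr 1
        exact Finset.sum_congr rfl fun s _ => by ring
      · exact Finset.sum_congr rfl fun s _ => by ring
    · exact Finset.sum_congr rfl fun s _ => by ring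

end CoreData

end LicciCore

end

section

/-!
# Assembly of the core theorem
-/

set_option autoImplicit false
set_option linter.unusedSectionVars false

open Matrix Kronecker RingTheory.Sequence IsLocalRing

namespace LicciCore

open LicciCx Cx Pool.Agent.Licci

universe u

/-- if nothing has degree one, everything has degree zero -/
theorem deg_eq_zero {k : Type*} [Field k] {J : Type*} [Fintype J] [DecidableEq J] {deg : J → ℤ}
    {om : Matrix J J k} (h1 : ∀ j, deg j ≤ 1) (h2 : ∀ j, -1 ≤ deg j)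
    (h3 : ∀ i j, deg i + deg j ≠ 0 → om i j = 0) (h4 : IsUnit om.det)
    (h5 : ¬ ∃ j, deg j = 1) (j : J) : deg j = 0 := by
  by_contra hj
  have hj1 : deg j = -1 := by
    have e1 := h1 j
    have e2 := h2 j
    have e3 : deg j ≠ 1 := fun h => h5 ⟨j, h⟩
    omega
  have h0 : om.det = 0 := by
    refine Matrix.det_eq_zero_of_row_eq_zero j fun i => h3 j i ?_
    intro h
    exact h5 ⟨i, by omega⟩
  rw [h0] at h4
  exact not_isUnit_zero h4

theorem charZero_residue {R : Type*} [CommRing R] [IsLocalRing R] (h : Nonempty (Algebra ℚ R)) :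
    CharZero (ResidueField R) := by
  obtain ⟨alg⟩ := h
  letI : Algebra ℚ (ResidueField R) := ((residue R).comp (algebraMap ℚ R)).toAlgebra
  exact algebraRat.charZero _

/-- the core theorem from its parts -/
theorem core_of {R : Type u} [CommRing R] [IsDomain R] [IsRegularLocalRing R]
    {p : Fin 248 → R} {a : Fin 6 → R} {J : Type} [Fintype J] [DecidableEq J]
    (S : Setup R p a) (D : CoreData R p a J) (ha : Ideal.span (Set.range a) = maximalIdeal R)
    (hS : Sfts D.X.deg (D.omk S) (D.Dk S))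
    (he : (∃ j, D.X.deg j = 1) → ∃ ε, SEps D.X.deg (D.Dk S) ε)
    (hu : (∀ j, D.X.deg j = 0) → ∃ j, IsUnit (p j))
    (hf : ∀ (ε : J → ResidueField R) (de : Matrix J J (ResidueField R)),
      SEps D.X.deg (D.Dk S) ε → SDer D.X.deg (D.omk S) (D.Dk S) de →
      ∀ j, D.X.deg j = 1 → False) : ∃ j, IsUnit (p j) := by
  by_cases h : ∃ j, D.X.deg j = 1
  · obtain ⟨ε, he⟩ := he h
    obtain ⟨de, hd⟩ := D.exists_sder S ha h
    obtain ⟨j, hj⟩ := h
    exact (hf ε de he hd j hj).elim
  · exact hu (deg_eq_zero D.deg_le D.le_deg hS.om_deg hS.om_unit h)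

end LicciCore

end
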